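import Pool.Agent.Helper38.HS.Reg

/-! The shape of an automorphism. -/

namespace Pool.Agent.Helper38.HS

/-- incidence preserving pair -/
def IncP (f : Equiv.Perm Pt) (g : Equiv.Perm Ln) : Prop := ∀ p l, Inc (f p) (g l) ↔ Inc p l

theorem coll_f {f : Equiv.Perm Pt} {g : Equiv.Perm Ln} (hfg : IncP f g) (p q : Pt) :
    Coll (f p) (f q) ↔ Coll p q := by
  constructor
  · rintro ⟨m, h1, h2⟩
    refine ⟨g.symm m, ?_, ?_⟩
    · rw [← hfg, g.apply_symm_apply]; exact h1
    · rw [← hfg, g.apply_symm_apply]; exact h2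
  · rintro ⟨m, h1, h2⟩
    exact ⟨g m, (hfg _ _).2 h1, (hfg _ _).2 h2⟩

/-- the coordinates of an automorphism -/
structure Dat (f : Equiv.Perm Pt) (g : Equiv.Perm Ln) where
  s : Fin 10 → Fin 10
  t : Fin 10 → V → V
  X : V → V → V
  Y : V → V → V
  C : V → V → F9 → F9
  G : Fin 10 → V → F9 → F9
  f_inf : f Pt.inf = Pt.inf
  g_inf : ∀ i, g (Ln.inf i) = Ln.inf (s i)
  f_cl : ∀ i z, f (Pt.cl i z) = Pt.cl (s i) (t i z)
  f_aff : ∀ x y c, f (Pt.aff x y c) = Pt.aff (X x y) (Y x y) (C x y c)
  g_ln : ∀ i z d, g (Ln.ln i z d) = Ln.ln (s i) (t i z) (G i z d)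
  zc_eq : ∀ i x y, zc (s i) (X x y) (Y x y) = t i (zc i x y)
  cc_eq : ∀ i x y c, cc (s i) (X x y) (Y x y) (C x y c) = G i (zc i x y) (cc i x y c)

theorem exists_dat {f : Equiv.Perm Pt} {g : Equiv.Perm Ln} (hfg : IncP f g) :
    Nonempty (Dat f g) := by
  have hinf : f Pt.inf = Pt.inf := reg_only (reg_map f (coll_f hfg) reg_inf)
  have h1 : ∀ i, ∃ j, g (Ln.inf i) = Ln.inf j := by
    intro i
    have h : Inc (f Pt.inf) (g (Ln.inf i)) := (hfg _ _).2 trivial
    rw [hinf] at h
    cases hg : g (Ln.inf i) with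
    | inf j => exact ⟨j, rfl⟩
    | ln j z c => rw [hg] at h; exact h.elim
  choose s hs using h1
  have hsinj : Function.Injective s := by
    intro i j hij
    have : g (Ln.inf i) = g (Ln.inf j) := by rw [hs, hs, hij]
    simpa using g.injective this
  have h2 : ∀ i z, ∃ w, f (Pt.cl i z) = Pt.cl (s i) w := by
    intro i z
    have h : Inc (f (Pt.cl i z)) (g (Ln.inf i)) := (hfg _ _).2 rfl
    rw [hs] at h
    cases hf : f (Pt.cl i z) with
    | inf => rw [← hinf] at hf; exact absurd (f.injective hf) (by simp)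
    | cl j w => rw [hf] at h; simp only [Inc] at h; rw [h]; exact ⟨w, rfl⟩
    | aff x y c => rw [hf] at h; exact h.elim
  choose t ht using h2
  have hssurj : Function.Surjective s := Finite.surjective_of_injective hsinj
  have h3 : ∀ x y c, ∃ x' y' c', f (Pt.aff x y c) = Pt.aff x' y' c' := by
    intro x y c
    cases hf : f (Pt.aff x y c) with
    | inf => rw [← hinf] at hf; exact absurd (f.injective hf) (by simp)
    | aff x' y' c' => exact ⟨x', y', c', rfl⟩
    | cl j w =>
      obtain ⟨i, rfl⟩ := hssurj j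
      have h : Inc (f (Pt.aff x y c)) (g (Ln.inf i)) := by rw [hf, hs]; rfl
      exact ((hfg _ _).1 h).elim
  choose X0 Y0 C hC using h3
  have hz : ∀ i x y c, zc (s i) (X0 x y c) (Y0 x y c) = t i (zc i x y) := by
    intro i x y c
    have h : Coll (f (Pt.aff x y c)) (f (Pt.cl i (zc i x y))) :=
      (coll_f hfg _ _).2 ((coll_iff _ _).2 (by simp [collB]))
    rw [hC, ht, coll_iff] at h
    simp only [collB, decide_eq_true_eq] at h
    exact h.symm
  have h01 : s 0 ≠ s 1 := fun h => absurd (hsinj h) (by decide)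
  have hXY : ∀ x y c, X0 x y c = X0 x y 0 ∧ Y0 x y c = Y0 x y 0 := by
    intro x y c
    exact class_of_two h01 (by rw [hz, hz]) (by rw [hz, hz])
  have h4 : ∀ i z d, ∃ e, g (Ln.ln i z d) = Ln.ln (s i) (t i z) e := by
    intro i z d
    have h : Inc (f (Pt.cl i z)) (g (Ln.ln i z d)) := (hfg _ _).2 ⟨rfl, rfl⟩
    rw [ht] at h
    cases hg : g (Ln.ln i z d) with
    | inf j =>
      rw [hg] at h
      simp only [Inc] at h
      rw [← h, ← hs] at hg
      exact absurd (g.injective hg) (by simp)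
    | ln j w e =>
      rw [hg] at h
      simp only [Inc] at h
      rw [h.1, h.2]
      exact ⟨e, rfl⟩
  choose G hG using h4
  refine ⟨⟨s, t, fun x y => X0 x y 0, fun x y => Y0 x y 0, C, G, hinf, hs, ht, ?_, hG, ?_, ?_⟩⟩
  · intro x y c
    rw [hC, (hXY x y c).1, (hXY x y c).2]
  · intro i x y
    exact hz i x y 0
  · intro i x y c
    have h : Inc (f (Pt.aff x y c)) (g (Ln.ln i (zc i x y) (cc i x y c))) :=
      (hfg _ _).2 ⟨rfl, rfl⟩
    rw [hC, hG, (hXY x y c).1, (hXY x y c).2] at h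
    exact h.2.symm

namespace Dat

variable {f : Equiv.Perm Pt} {g : Equiv.Perm Ln}

theorem s_inj (D : Dat f g) : Function.Injective D.s := by
  intro i j hij
  have : g (Ln.inf i) = g (Ln.inf j) := by rw [D.g_inf, D.g_inf, hij]
  simpa using g.injective this

theorem s_bij (D : Dat f g) : Function.Bijective D.s := Finite.injective_iff_bijective.1 D.s_inj

theorem C_inj (D : Dat f g) (x y : V) : Function.Injective (D.C x y) := by
  intro c c' h
  have : f (Pt.aff x y c) = f (Pt.aff x y c') := by rw [D.f_aff, D.f_aff, h]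
  simpa using f.injective this

theorem C_bij (D : Dat f g) (x y : V) : Function.Bijective (D.C x y) := by
  haveI : Finite F9 := inferInstance
  exact Finite.injective_iff_bijective.1 (D.C_inj x y)

end Dat

/-- a class with two prescribed coordinates -/
theorem exists_class {i j : Fin 10} (h : i ≠ j) (u v : V) : ∃ x y, zc i x y = u ∧ zc j x y = v := by
  have hD := Dinv_spec h (u - v)
  refine ⟨u + S i (Dinv i j (u - v)), Dinv i j (u - v), ?_, ?_⟩
  · rw [zc]; abel
  · rw [zc]
    have : u + S i (Dinv i j (u - v)) - S j (Dinv i j (u - v)) =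
      u - (S j (Dinv i j (u - v)) - S i (Dinv i j (u - v))) := by abel
    rw [this, hD]; abel

end Pool.Agent.Helper38.HS
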