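import Pool.Agent.Helper38.HS.BltC

namespace Pool.Agent.Helper38.HS

theorem nr_sub (a b : F9) : nr (a - b) = subN (nr a) (nr b) := by
  rw [sub_eq_add_neg, nr_add, nr_neg]; rfl

theorem nr_inv : ∀ a : F9, nr (a⁻¹) = invN (nr a) := by decide

theorem nr_sa : ∀ i : Fin 10, nr (Sa i) = san i.val := by decide
theorem nr_sb : ∀ i : Fin 10, nr (Sb i) = sbn i.val := by decide
theorem nr_sd : ∀ i : Fin 10, nr (Sd i) = sdn i.val := by decide

theorem val_eq (i j : Fin 10) (r : V) :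
    nr (val i j r) = valN (subN (san j.val) (san i.val)) (subN (sbn j.val) (sbn i.val))
      (subN (sdn j.val) (sdn i.val)) (nr r.1) (nr r.2) := by
  have h : val i j r = (dt i j)⁻¹ * (((Sd j - Sd i) * r.1 - (Sb j - Sb i) * r.2) * r.1 +
      ((Sa j - Sa i) * r.2 - (Sb j - Sb i) * r.1) * r.2) := by
    simp only [val, dot, Dinv]; ring
  rw [h]
  simp only [nr_mul, nr_add, nr_sub, nr_inv, dt, nr_sa, nr_sb, nr_sd, valN]

theorem blt_exists (i : Fin 10) (r : V) (hr : r ≠ 0) (K : F9) :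
    ∃ j : Fin 10, j ≠ i ∧ val i j r = K := by
  obtain ⟨j, hj, h⟩ := surj0 i r.1 r.2 (fun h => hr (by ext <;> simp_all)) K
  exact ⟨j, hj, nr_inj (by rw [val_eq, h])⟩

theorem card_ne : ∀ i : Fin 10, Fintype.card {j : Fin 10 // j ≠ i} = 9 := by decide

theorem blt_inj (i : Fin 10) (r : V) (hr : r ≠ 0) {j k : Fin 10} (hj : j ≠ i) (hk : k ≠ i)
    (h : val i j r = val i k r) : j = k := by
  have hs : Function.Surjective (fun j : {j : Fin 10 // j ≠ i} => val i j.1 r) := fun K => by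
    obtain ⟨j, hj, h⟩ := blt_exists i r hr K
    exact ⟨⟨j, hj⟩, h⟩
  have hc : Fintype.card {j : Fin 10 // j ≠ i} = Fintype.card F9 := by
    rw [card9]; exact card_ne i
  have hb := (Fintype.bijective_iff_surjective_and_card _).2 ⟨hs, hc⟩
  have := hb.1 (a₁ := ⟨j, hj⟩) (a₂ := ⟨k, hk⟩) h
  exact congrArg Subtype.val this

end Pool.Agent.Helper38.HS
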