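import Pool.Agent.Helper38.HS.Model

namespace Pool.Agent.Helper38.HS

/-- raw number version of val, entries of the matrices given as numbers -/
def subN (a b : ℕ) : ℕ := addN a (negN b)

def valN (a b d r1 r2 : ℕ) : ℕ :=
  mulN (invN (subN (mulN a d) (mulN b b)))
    (addN (mulN (subN (mulN d r1) (mulN b r2)) r1) (mulN (subN (mulN a r2) (mulN b r1)) r2))

def san (i : ℕ) : ℕ := ([2, 0, 6, 6, 1, 2, 0, 3, 3, 1] : List ℕ).getD i 0
def sbn (i : ℕ) : ℕ := ([7, 8, 6, 3, 3, 4, 5, 3, 6, 6] : List ℕ).getD i 0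
def sdn (i : ℕ) : ℕ := ([3, 7, 0, 4, 3, 6, 4, 0, 7, 6] : List ℕ).getD i 0

theorem surj0 : ∀ i : Fin 10, ∀ r1 r2 : F9, (r1, r2) ≠ (0, 0) → ∀ K : F9,
    ∃ j : Fin 10, j ≠ i ∧ valN (subN (san j.val) (san i.val)) (subN (sbn j.val) (sbn i.val))
      (subN (sdn j.val) (sdn i.val)) (nr r1) (nr r2) = nr K := by
  decide

end Pool.Agent.Helper38.HS
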