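import Pool.Agent.Helper38.HS.Tab

/-! The number level check of a set of lines. -/

namespace Pool.Agent.Helper38.HS

open Finset

def rowH (H i z : ℕ) : ℕ := Nat.land (Nat.shiftRight H (9 * (81 * i + z))) 511

def rz (H i y z : ℕ) : ℕ := pE (dotV y z) (rowH H i z)

def rr (H i x y : ℕ) : ℕ := rz H i y (subV x (sV i y))

def lsum (F : ℕ → ℕ) (n : ℕ) : ℕ := Nat.rec 0 (fun i ih => Nat.add (F i) ih) n

def lall (F : ℕ → Bool) (n : ℕ) : Bool := Nat.rec true (fun i ih => F i && ih) n

def sumQ (H x y : ℕ) : ℕ := lsum (fun i => q4 (rr H i x y)) 10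

def colN (H x y : ℕ) : ℕ :=
  lsum (fun i => Nat.add (wt (rr H i x y))
    (Nat.mul 2 (lsum (fun j => wt (Nat.land (rr H i x y) (rr H j x y))) i))) 10

def memL (c : ℕ) (l : List ℕ) : Bool := l.foldr (fun a b => Nat.beq c a || b) false

/-- the check at one class: the hemisystem condition, and the colour is not one of the special
colours unless the class is one of the special classes -/
def chk1 (H : ℕ) (tl cl : List ℕ) (x y : ℕ) : Bool :=
  Nat.beq (sumQ H x y) 0x555555555 && (memL (81 * x + y) tl || !(memL (colN H x y) cl))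

/-- the set of lines given by two numbers -/
def hL (H HI : ℕ) : Ln → Bool
  | Ln.inf i => HI.testBit i.val
  | Ln.ln i z c => (rowH H i.val (vn z)).testBit (nr c)

theorem lsum_eq (F : ℕ → ℕ) (n : ℕ) : lsum F n = ∑ i ∈ range n, F i := by
  induction n with
  | zero => rfl
  | succ n ih =>
    have h : lsum F (n + 1) = F n + lsum F n := rfl
    rw [h, ih, sum_range_succ, Nat.add_comm]

theorem lall_eq {F : ℕ → Bool} {n : ℕ} (h : lall F n = true) : ∀ k < n, F k = true := by
  induction n with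
  | zero => intro k hk; omega
  | succ n ih =>
    have h' : (F n && lall F n) = true := h
    rw [Bool.and_eq_true] at h'
    intro k hk
    rcases Nat.lt_succ_iff_lt_or_eq.1 hk with h1 | h1
    · exact ih h'.2 k h1
    · rw [h1]; exact h'.1

theorem rowH_lt (H i z : ℕ) : rowH H i z < 512 :=
  Nat.and_lt_two_pow _ (by norm_num : 511 < 2 ^ 9)

theorem rr_lt (H i x y : ℕ) : rr H i x y < 512 :=
  Nat.and_lt_two_pow _ (by norm_num : 511 < 2 ^ 9)

theorem rr_pt (H HI : ℕ) (x y : V) (c : F9) (i : Fin 10) :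
    (rr H i.val (vn x) (vn y)).testBit (nr c) = pt (hL H HI) x y c i := by
  unfold rr rz pt hL
  rw [sV_eq, subV_eq, dotV_eq, pE_eq _ _ (rowH_lt _ _ _)]
  rfl

theorem land_pt (H HI : ℕ) (x y : V) (i j : Fin 10) :
    pop (Nat.land (rr H i.val (vn x) (vn y)) (rr H j.val (vn x) (vn y))) =
      ip (hL H HI) x y i j := by
  unfold pop ip
  congr 1
  ext c
  simp only [mem_filter, mem_univ, true_and]
  rw [← rr_pt H HI x y c i, ← rr_pt H HI x y c j, ← Nat.testBit_and]
  rfl

theorem land_self_pt (H HI : ℕ) (x y : V) (i : Fin 10) :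
    pop (rr H i.val (vn x) (vn y)) = ip (hL H HI) x y i i := by
  rw [← land_pt]
  congr 1
  exact (Nat.and_self _).symm

/-- double sum of a symmetric function -/
theorem sym_sum (F : ℕ → ℕ → ℕ) (hF : ∀ i j, F i j = F j i) (n : ℕ) :
    ∑ i ∈ range n, ∑ j ∈ range n, F i j =
      ∑ i ∈ range n, (F i i + 2 * ∑ j ∈ range i, F i j) := by
  induction n with
  | zero => simp
  | succ n ih =>
    have e : ∑ i ∈ range n, ∑ j ∈ range (n + 1), F i j =
        ∑ i ∈ range n, ∑ j ∈ range n, F i j + ∑ j ∈ range n, F n j := by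
      rw [← sum_add_distrib]
      refine sum_congr rfl fun i _ => ?_
      rw [sum_range_succ, hF i n]
    have e1 : ∑ i ∈ range (n + 1), ∑ j ∈ range (n + 1), F i j =
        ∑ i ∈ range n, ∑ j ∈ range (n + 1), F i j + ∑ j ∈ range (n + 1), F n j :=
      sum_range_succ _ _
    have e2 : ∑ i ∈ range (n + 1), (F i i + 2 * ∑ j ∈ range i, F i j) =
        ∑ i ∈ range n, (F i i + 2 * ∑ j ∈ range i, F i j) +
          (F n n + 2 * ∑ j ∈ range n, F n j) := sum_range_succ _ _
    have e3 : ∑ j ∈ range (n + 1), F n j = ∑ j ∈ range n, F n j + F n n := sum_range_succ _ _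
    rw [e1, e2, e, e3, ih]
    ring


theorem land_lt (a b : ℕ) (h : a < 512) : Nat.land a b < 512 :=
    lt_of_le_of_lt (Nat.and_le_left : a &&& b ≤ a) h
theorem land_self (a : ℕ) : Nat.land a a = a := Nat.and_self a
theorem land_comm (a b : ℕ) : Nat.land a b = Nat.land b a := Nat.and_comm a b
theorem add_mul_two (a b : ℕ) : Nat.add a (Nat.mul 2 b) = a + 2 * b := rfl

theorem sumFin (F : ℕ → ℕ → ℕ) : ∑ i : Fin 10, ∑ j : Fin 10, F i.val j.val =
      ∑ i ∈ range 10, ∑ j ∈ range 10, F i j := by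
    rw [Finset.sum_range]
    refine sum_congr rfl fun i _ => ?_
    rw [Finset.sum_range]

theorem colN_aux (R : ℕ → ℕ) (hR : ∀ i, R i < 512) :
    lsum (fun i => Nat.add (wt (R i)) (Nat.mul 2 (lsum (fun j => wt (Nat.land (R i) (R j))) i))) 10
      = ∑ i : Fin 10, ∑ j : Fin 10, wf (pop (Nat.land (R i.val) (R j.val))) := by
  rw [sumFin (fun i j => wf (pop (Nat.land (R i) (R j)))),
    sym_sum (fun i j => wf (pop (Nat.land (R i) (R j)))) (fun i j => by rw [land_comm]) 10, lsum_eq]
  refine sum_congr rfl fun i _ => ?_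
  rw [add_mul_two, lsum_eq, land_self, wt_eq (hR i)]
  congr 2
  refine sum_congr rfl fun j _ => ?_
  rw [wt_eq (land_lt _ _ (hR i))]

theorem colN_eq (H HI : ℕ) (x y : V) : colN H (vn x) (vn y) = colr wf (hL H HI) x y := by
  unfold colN
  rw [colN_aux (fun i => rr H i (vn x) (vn y)) (fun i => rr_lt _ _ _ _)]
  unfold colr
  refine sum_congr rfl fun i _ => sum_congr rfl fun j _ => ?_
  rw [← land_pt H HI]

theorem memL_iff (c : ℕ) (l : List ℕ) : memL c l = true ↔ c ∈ l := by
  induction l with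
  | nil => simp [memL]
  | cons a l ih =>
    have : memL c (a :: l) = (Nat.beq c a || memL c l) := rfl
    rw [this, Bool.or_eq_true, ih, List.mem_cons, Nat.beq_eq]

/-- digits -/
theorem digits (n : Fin 9 → ℕ) (hn : ∀ k, n k ≤ 10)
    (h : ∑ k : Fin 9, n k * 16 ^ k.val = 0x555555555) : ∀ k, n k = 5 := by
  have h0 := hn 0; have h1 := hn 1; have h2 := hn 2; have h3 := hn 3; have h4 := hn 4
  have h5 := hn 5; have h6 := hn 6; have h7 := hn 7; have h8 := hn 8
  have h' : n 0 + n 1 * 16 + n 2 * 256 + n 3 * 4096 + n 4 * 65536 + n 5 * 1048576 +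
      n 6 * 16777216 + n 7 * 268435456 + n 8 * 4294967296 = 22906492245 := by
    rw [← h]
    simp only [Fin.sum_univ_succ, Fin.sum_univ_zero]
    simp
    ring_nf
  have hh : n 0 = 5 ∧ n 1 = 5 ∧ n 2 = 5 ∧ n 3 = 5 ∧ n 4 = 5 ∧ n 5 = 5 ∧ n 6 = 5 ∧ n 7 = 5 ∧
      n 8 = 5 := by omega
  obtain ⟨g0, g1, g2, g3, g4, g5, g6, g7, g8⟩ := hh
  intro k
  fin_cases k
  · exact g0
  · exact g1
  · exact g2
  · exact g3
  · exact g4
  · exact g5
  · exact g6
  · exact g7
  · exact g8

theorem sumQ_five (R : ℕ → ℕ) (hR : ∀ i, R i < 512)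
    (h : lsum (fun i => q4 (R i)) 10 = 0x555555555) (k : Fin 9) :
    (univ.filter (fun i : Fin 10 => (R i.val).testBit k.val = true)).card = 5 := by
  have e : ∀ k : ℕ, (univ.filter (fun i : Fin 10 => (R i.val).testBit k = true)).card =
      ∑ i ∈ range 10, (if (R i).testBit k = true then 1 else 0) := by
    intro k
    rw [Finset.card_filter, Finset.sum_range]
  have h1 : ∑ k : Fin 9, (∑ i ∈ range 10, (if (R i).testBit k.val = true then 1 else 0)) *
      16 ^ k.val = 0x555555555 := by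
    rw [← h, lsum_eq]
    have e1 : ∑ i ∈ range 10, q4 (R i) =
        ∑ i ∈ range 10, ∑ k ∈ range 9, (if (R i).testBit k = true then 1 else 0) * 16 ^ k :=
      sum_congr rfl fun i _ => q4_eq (hR i)
    rw [e1, Finset.sum_comm, ← Finset.sum_range (fun k => (∑ i ∈ range 10,
      (if (R i).testBit k = true then 1 else 0)) * 16 ^ k)]
    refine sum_congr rfl fun k _ => ?_
    rw [Finset.sum_mul]
  rw [e]
  refine digits (fun k => ∑ i ∈ range 10, (if (R i).testBit k.val = true then 1 else 0)) ?_ h1 k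
  intro k
  calc (∑ i ∈ range 10, (if (R i).testBit k.val = true then 1 else 0))
      ≤ ∑ i ∈ range 10, 1 := sum_le_sum fun i _ => by split_ifs <;> omega
    _ = 10 := by simp

theorem pt_five (H HI : ℕ) (x y : V) (c : F9) (h : sumQ H (vn x) (vn y) = 0x555555555) :
    (univ.filter (fun i : Fin 10 => pt (hL H HI) x y c i = true)).card = 5 := by
  have := sumQ_five (fun i => rr H i (vn x) (vn y)) (fun i => rr_lt _ _ _ _) h
    ⟨nr c, nr_lt c⟩
  rw [← this]
  congr 1
  ext i
  simp only [mem_filter, mem_univ, true_and]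
  rw [← rr_pt H HI x y c i]

/-- what the check gives -/
theorem chk_out {H HI : ℕ} {tl cl : List ℕ}
    (h : lall (fun x => lall (chk1 H tl cl x) 81) 81 = true) (x y : V) :
    (∀ c, (univ.filter (fun i : Fin 10 => pt (hL H HI) x y c i = true)).card = 5) ∧
    (colr wf (hL H HI) x y ∈ cl → 81 * vn x + vn y ∈ tl) := by
  have h1 := lall_eq (lall_eq h (vn x) (vn_lt x)) (vn y) (vn_lt y)
  unfold chk1 at h1
  rw [Bool.and_eq_true, Bool.or_eq_true, Bool.not_eq_true', Nat.beq_eq] at h1
  obtain ⟨h2, h3⟩ := h1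
  refine ⟨fun c => pt_five H HI x y c h2, fun hc => ?_⟩
  rcases h3 with h3 | h3
  · exact (memL_iff _ _).1 h3
  · rw [← colN_eq, ← memL_iff, h3] at hc
    exact absurd hc (by simp)

end Pool.Agent.Helper38.HS
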