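import Mathlib

namespace Pool.Agent.Helper38.HS

/-- `I` is the incidence relation (between the points `P` and the lines `L`) of a generalized
quadrangle of order `(s, t)`. -/
structure IsGQ {P L : Type} (I : P → L → Prop) (s t : ℕ) : Prop where
  /-- there is a point -/
  nonempty : Nonempty P
  /-- every line carries exactly `s + 1` points -/
  points : ∀ l, {p | I p l}.ncard = s + 1
  /-- every point lies on exactly `t + 1` lines -/
  lines : ∀ p, {l | I p l}.ncard = t + 1
  /-- two distinct points lie on at most one common line -/
  two : ∀ p p' l l', p ≠ p' → I p l → I p' l → I p l' → I p' l' → l = l'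
  /-- for a point not on a line, exactly one point of the line is collinear with it -/
  proj : ∀ p l, ¬ I p l → ∃! p', I p' l ∧ ∃ m, I p m ∧ I p' m

end Pool.Agent.Helper38.HS
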