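import Mathlib

/-! The field with nine elements, with operations given by tables. -/

namespace Pool.Agent.Helper38.HS

/-- The element a + b i (i^2 = -1) of the field with nine elements has number a + 3 b. -/
def F9 : Type := Fin 9

instance : DecidableEq F9 := inferInstanceAs (DecidableEq (Fin 9))
instance : Fintype F9 := inferInstanceAs (Fintype (Fin 9))

def addT : ℕ := 0x435102768354021687543210876102768435021687354210876543768435102687354021876543210
def mulT : ℕ := 0x615237480138624570582471360264318750327165840741852630453786120876543210000000000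
def negT : ℕ := 0x453786120
def invT : ℕ := 0x783456210

def addN (a b : ℕ) : ℕ := (addT >>> (4 * (9 * a + b))) &&& 15
def mulN (a b : ℕ) : ℕ := (mulT >>> (4 * (9 * a + b))) &&& 15
def negN (a : ℕ) : ℕ := (negT >>> (4 * a)) &&& 15
def invN (a : ℕ) : ℕ := (invT >>> (4 * a)) &&& 15

/-- the element with number n -/
def el (n : ℕ) : F9 := Fin.ofNat 9 n

/-- the number of an element -/
def nr (a : F9) : ℕ := Fin.val (n := 9) a

instance : Zero F9 := ⟨el 0⟩
instance : One F9 := ⟨el 1⟩
instance : Add F9 := ⟨fun a b => el (addN (nr a) (nr b))⟩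
instance : Mul F9 := ⟨fun a b => el (mulN (nr a) (nr b))⟩
instance : Neg F9 := ⟨fun a => el (negN (nr a))⟩
instance : Inv F9 := ⟨fun a => el (invN (nr a))⟩

theorem add_assoc9 : ∀ a b c : F9, a + b + c = a + (b + c) := by decide
theorem add_comm9 : ∀ a b : F9, a + b = b + a := by decide
theorem zero_add9 : ∀ a : F9, 0 + a = a := by decide
theorem neg_add9 : ∀ a : F9, -a + a = 0 := by decide
theorem mul_assoc9 : ∀ a b c : F9, a * b * c = a * (b * c) := by decide
theorem mul_comm9 : ∀ a b : F9, a * b = b * a := by decide
theorem one_mul9 : ∀ a : F9, 1 * a = a := by decide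
theorem left_distrib9 : ∀ a b c : F9, a * (b + c) = a * b + a * c := by decide
theorem mul_inv9 : ∀ a : F9, a ≠ 0 → a * a⁻¹ = 1 := by decide

instance : CommRing F9 where
  add_assoc := add_assoc9
  zero_add := zero_add9
  add_zero := fun a => by rw [add_comm9, zero_add9]
  add_comm := add_comm9
  neg_add_cancel := neg_add9
  mul_assoc := mul_assoc9
  one_mul := one_mul9
  mul_one := fun a => by rw [mul_comm9, one_mul9]
  left_distrib := left_distrib9
  right_distrib := fun a b c => by rw [mul_comm9, left_distrib9, mul_comm9 c a, mul_comm9 c b]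
  mul_comm := mul_comm9
  zero_mul := by decide
  mul_zero := by decide
  nsmul := nsmulRec
  zsmul := zsmulRec

instance : Nontrivial F9 := ⟨0, 1, by decide⟩

instance : Field F9 where
  inv_zero := by decide
  mul_inv_cancel := mul_inv9
  nnqsmul := _
  nnqsmul_def := fun _ _ => rfl
  qsmul := _
  qsmul_def := fun _ _ => rfl

theorem three9 : (3 : F9) = 0 := by decide

theorem card9 : Fintype.card F9 = 9 := rfl

theorem nr_lt (a : F9) : nr a < 9 := a.2

theorem nr_el {n : ℕ} (h : n < 9) : nr (el n) = n := Nat.mod_eq_of_lt h

theorem el_nr (a : F9) : el (nr a) = a := by revert a; decide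

theorem nr_inj {a b : F9} (h : nr a = nr b) : a = b := Fin.ext h

theorem nr_add : ∀ a b : F9, nr (a + b) = addN (nr a) (nr b) := by decide
theorem nr_mul : ∀ a b : F9, nr (a * b) = mulN (nr a) (nr b) := by decide
theorem nr_neg : ∀ a : F9, nr (-a) = negN (nr a) := by decide

end Pool.Agent.Helper38.HS
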