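import Pool.Agent.Helper38.HS.Chk

/-! From the check to the theorem. -/

namespace Pool.Agent.Helper38.HS

open Finset

def rowN (H i x y : ℕ) : ℕ := lsum (fun j => wt (Nat.land (rr H i x y) (rr H j x y))) 10

theorem rowN_eq (H HI : ℕ) (x y : V) (i : Fin 10) :
    rowN H i.val (vn x) (vn y) = rowc wf (hL H HI) x y i := by
  unfold rowN rowc
  rw [lsum_eq, Finset.sum_range]
  refine sum_congr rfl fun j _ => ?_
  rw [wt_eq (land_lt _ _ (rr_lt _ _ _ _)), land_pt H HI]

theorem vn_inj {u v : V} (h : vn u = vn v) : u = v := by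
  unfold vn at h
  have h1 := nr_lt u.1; have h2 := nr_lt u.2; have h3 := nr_lt v.1; have h4 := nr_lt v.2
  have e1 : nr u.1 = nr v.1 := by omega
  have e2 : nr u.2 = nr v.2 := by omega
  exact Prod.ext (nr_inj e1) (nr_inj e2)

/-- the set of lines -/
def HSet (H HI : ℕ) : Set Ln := {l | hL H HI l = true}

theorem lines_aff (H HI : ℕ) (x y : V) (c : F9) :
    {l | l ∈ HSet H HI ∧ Inc (Pt.aff x y c) l}.ncard =
      (univ.filter (fun i : Fin 10 => pt (hL H HI) x y c i = true)).card := by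
  rw [← Set.ncard_coe_finset]
  symm
  refine Set.ncard_congr (fun i _ => Ln.ln i (zc i x y) (cc i x y c)) ?_ ?_ ?_
  · intro i hi
    simp only [coe_filter, mem_univ, true_and, Set.mem_setOf_eq] at hi
    exact ⟨hi, rfl, rfl⟩
  · intro i j _ _ h
    simp only [Ln.ln.injEq] at h
    exact h.1
  · rintro l ⟨h1, h2⟩
    cases l with
    | inf i => exact h2.elim
    | ln i z d =>
      simp only [Inc] at h2
      obtain ⟨rfl, rfl⟩ := h2
      refine ⟨i, ?_, rfl⟩
      simp only [coe_filter, mem_univ, true_and, Set.mem_setOf_eq]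
      exact h1

theorem lines_inf (H HI : ℕ) :
    {l | l ∈ HSet H HI ∧ Inc Pt.inf l}.ncard =
      (univ.filter (fun i : Fin 10 => HI.testBit i.val = true)).card := by
  rw [← Set.ncard_coe_finset]
  symm
  refine Set.ncard_congr (fun i _ => Ln.inf i) ?_ ?_ ?_
  · intro i hi
    simp only [coe_filter, mem_univ, true_and, Set.mem_setOf_eq] at hi
    exact ⟨hi, trivial⟩
  · intro i j _ _ h
    simpa using h
  · rintro l ⟨h1, h2⟩
    cases l with
    | inf i =>
      refine ⟨i, ?_, rfl⟩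
      simp only [coe_filter, mem_univ, true_and, Set.mem_setOf_eq]
      exact h1
    | ln i z d => exact h2.elim

theorem lines_cl (H HI : ℕ) (i : Fin 10) (z : V) :
    {l | l ∈ HSet H HI ∧ Inc (Pt.cl i z) l}.ncard =
      (if HI.testBit i.val = true then 1 else 0) + pop (rowH H i.val (vn z)) := by
  have hs : {l | l ∈ HSet H HI ∧ Inc (Pt.cl i z) l} =
      {l | l = Ln.inf i ∧ HI.testBit i.val = true} ∪
      {l | ∃ c, l = Ln.ln i z c ∧ (rowH H i.val (vn z)).testBit (nr c) = true} := by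
    ext l
    simp only [Set.mem_setOf_eq, Set.mem_union]
    constructor
    · rintro ⟨h1, h2⟩
      cases l with
      | inf j =>
        simp only [Inc] at h2
        subst h2
        exact Or.inl ⟨rfl, h1⟩
      | ln j w c =>
        simp only [Inc] at h2
        obtain ⟨rfl, rfl⟩ := h2
        exact Or.inr ⟨c, rfl, h1⟩
    · rintro (⟨rfl, h⟩ | ⟨c, rfl, h⟩)
      · exact ⟨h, rfl⟩
      · exact ⟨h, rfl, rfl⟩
  have hd : Disjoint {l | l = Ln.inf i ∧ HI.testBit i.val = true}
      {l | ∃ c, l = Ln.ln i z c ∧ (rowH H i.val (vn z)).testBit (nr c) = true} := by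
    rw [Set.disjoint_left]
    rintro l ⟨h1, _⟩ ⟨c, h2, _⟩
    rw [h1] at h2
    exact absurd h2 (by simp)
  haveI : Finite Ln := inferInstance
  rw [hs, Set.ncard_union_eq hd (Set.toFinite _) (Set.toFinite _)]
  congr 1
  · split_ifs with h
    · simp only [h, and_true]
      exact Set.ncard_singleton _
    · simp [h]
  · unfold pop
    rw [← Set.ncard_coe_finset]
    symm
    refine Set.ncard_congr (fun c _ => Ln.ln i z c) ?_ ?_ ?_
    · intro c hc
      simp only [coe_filter, mem_univ, true_and, Set.mem_setOf_eq] at hc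
      exact ⟨c, rfl, hc⟩
    · intro c d _ _ h
      simpa using h
    · rintro l ⟨c, rfl, h⟩
      refine ⟨c, ?_, rfl⟩
      simp only [coe_filter, mem_univ, true_and, Set.mem_setOf_eq]
      exact h

theorem hemi_of_chk (H HI : ℕ) (tl cl : List ℕ) (T : Fin 5 → V × V)
    (hchk : lall (fun x => lall (chk1 H tl cl x) 81) 81 = true)
    (htl : ∀ n ∈ tl, ∃ k, n = 81 * vn (T k).1 + vn (T k).2)
    (hcl : ∀ k, colN H (vn (T k).1) (vn (T k).2) ∈ cl)
    (hinj : ∀ j k, colN H (vn (T j).1) (vn (T j).2) = colN H (vn (T k).1) (vn (T k).2) → j = k)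
    (hrow : ∀ i j : Fin 10, rowN H i.val (vn (T 0).1) (vn (T 0).2) =
      rowN H j.val (vn (T 0).1) (vn (T 0).2) → i = j)
    (hpat : ∀ c c' : F9, (∀ i : Fin 10, (rr H i.val (vn (T 0).1) (vn (T 0).2)).testBit (nr c) =
      (rr H i.val (vn (T 0).1) (vn (T 0).2)).testBit (nr c')) → c = c')
    (hspan : ∀ p : V, ∃ a b c d : Fin 3, p =
      a.val • (zc 2 (T 1).1 (T 1).2 - zc 2 (T 0).1 (T 0).2) +
      b.val • (zc 2 (T 2).1 (T 2).2 - zc 2 (T 0).1 (T 0).2) +
      c.val • (zc 2 (T 3).1 (T 3).2 - zc 2 (T 0).1 (T 0).2) +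
      d.val • (zc 2 (T 4).1 (T 4).2 - zc 2 (T 0).1 (T 0).2))
    (hi : (univ.filter (fun i : Fin 10 => HI.testBit i.val = true)).card = 5)
    (hc : ∀ i : Fin 10, ∀ z : V,
      (if HI.testBit i.val = true then 1 else 0) + pop (rowH H i.val (vn z)) = 5) :
    (∀ p, {l | l ∈ HSet H HI ∧ Inc p l}.ncard = 5) ∧
    ∀ (f : Equiv.Perm Pt) (g : Equiv.Perm Ln), (∀ p l, Inc (f p) (g l) ↔ Inc p l) →
      g '' (HSet H HI) = HSet H HI → f = 1 ∧ g = 1 := by
  refine ⟨?_, ?_⟩
  · intro p
    cases p with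
    | inf => rw [lines_inf, hi]
    | cl i z => rw [lines_cl, hc]
    | aff x y c => rw [lines_aff]; exact (chk_out hchk x y).1 c
  · intro f g hfg hg
    have hgl : ∀ l, hL H HI (g l) = hL H HI l := by
      intro l
      have h1 : g l ∈ HSet H HI ↔ l ∈ HSet H HI := by
        constructor
        · intro h
          rw [← hg] at h
          obtain ⟨m, hm, e⟩ := h
          rw [← g.injective e]; exact hm
        · intro h
          rw [← hg]; exact ⟨l, h, rfl⟩
      have h2 : hL H HI (g l) = true ↔ hL H HI l = true := h1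
      cases ha : hL H HI (g l) <;> cases hb : hL H HI l <;> simp_all
    refine rigid wf (hL H HI) T ?_ ?_ ?_ hspan f g hfg hgl
    · intro k x y hxy
      have hmem := (chk_out (HI := HI) hchk x y).2 (by
        rw [hxy, ← colN_eq H HI]; exact hcl k)
      obtain ⟨j, hj⟩ := htl _ hmem
      have h1 := vn_lt y; have h2 := vn_lt (T j).2
      have e1 : vn x = vn (T j).1 := by omega
      have e2 : vn y = vn (T j).2 := by omega
      have ex := vn_inj e1
      have ey := vn_inj e2
      have hjk : j = k := by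
        apply hinj
        rw [colN_eq H HI, colN_eq H HI, ← hxy, ex, ey]
      rw [← hjk, ex, ey]
    · intro i j hij
      apply hrow
      rw [rowN_eq H HI, rowN_eq H HI, hij]
    · intro c c' h
      apply hpat
      intro i
      rw [rr_pt H HI, rr_pt H HI, h]

theorem final_of_chk (H HI : ℕ)
    (h : (∀ p, {l | l ∈ HSet H HI ∧ Inc p l}.ncard = 5) ∧
      ∀ (f : Equiv.Perm Pt) (g : Equiv.Perm Ln), (∀ p l, Inc (f p) (g l) ↔ Inc p l) →
        g '' (HSet H HI) = HSet H HI → f = 1 ∧ g = 1) :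
    ∃ q : ℕ, q = 9 ∧ Odd q ∧ IsPrimePow q ∧
      ∃ (P L : Type) (_ : Finite P) (_ : Finite L) (I : P → L → Prop) (H : Set L),
        IsGQ I (q ^ 2) q ∧ (∀ p, {l | l ∈ H ∧ I p l}.ncard = (q + 1) / 2) ∧
        ∀ (f : Equiv.Perm P) (g : Equiv.Perm L), (∀ p l, I (f p) (g l) ↔ I p l) →
          g '' H = H → f = 1 ∧ g = 1 := by
  refine ⟨9, rfl, by decide, ?_, Pt, Ln, inferInstance, inferInstance, Inc, HSet H HI, isGQ, h.1,
    h.2⟩
  rw [isPrimePow_nat_iff]
  exact ⟨3, 2, by norm_num, by norm_num, by norm_num⟩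

end Pool.Agent.Helper38.HS
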