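import Pool.Agent.Helper38.HS.Blt

namespace Pool.Agent.Helper38.HS

theorem natcard_V : Nat.card V = 81 := by
  rw [Nat.card_eq_fintype_card, Fintype.card_prod, card9]

theorem natcard_F9 : Nat.card F9 = 9 := by
  rw [Nat.card_eq_fintype_card, card9]

theorem ncard_insert_range {α β : Type} [Finite β] (a : α) (f : β → α) (hf : Function.Injective f)
    (ha : ∀ b, f b ≠ a) (s : Set α) (hs : ∀ x, x ∈ s ↔ x = a ∨ ∃ b, f b = x) :
    s.ncard = Nat.card β + 1 := by
  have h : s = insert a (Set.range f) := by
    ext x; rw [hs x]; simp
  rw [h, Set.ncard_insert_of_notMem (by rintro ⟨b, hb⟩; exact ha b hb) (Set.finite_range f),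
    ← Set.image_univ, Set.ncard_image_of_injective _ hf, Set.ncard_univ]

theorem inc_points (l : Ln) : {p | Inc p l}.ncard = 81 + 1 := by
  rw [← natcard_V]
  cases l with
  | inf i =>
    refine ncard_insert_range Pt.inf (fun z => Pt.cl i z) (fun z w h => by simpa using h)
      (fun z => by simp) _ (fun x => ?_)
    cases x <;> simp [Inc, eq_comm]
  | ln i z c =>
    refine ncard_insert_range (Pt.cl i z) (fun y => Pt.aff (z + S i y) y (c + dot y z))
      (fun y w h => by simp at h; exact h.2.1) (fun y => by simp) _ (fun x => ?_)
    cases x with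
    | inf => simp [Inc]
    | cl j w => simp [Inc]
    | aff x y d =>
      simp only [Set.mem_setOf_eq, Inc, reduceCtorEq, false_or, Pt.aff.injEq]
      constructor
      · rintro ⟨h1, h2⟩
        refine ⟨y, ?_, rfl, ?_⟩
        · rw [h1, zc]; abel
        · rw [h2, cc, h1]; ring
      · rintro ⟨w, h1, rfl, h2⟩
        have hz : z = zc i x w := by rw [zc, ← h1]; abel
        refine ⟨hz, ?_⟩
        rw [cc, ← hz, ← h2]; ring

theorem inc_lines (p : Pt) : {l | Inc p l}.ncard = 9 + 1 := by
  cases p with
  | inf =>
    have h : {l | Inc Pt.inf l} = Set.range Ln.inf := by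
      ext x; cases x <;> simp [Inc]
    rw [h, ← Set.image_univ, Set.ncard_image_of_injective _ (fun a b h => by simpa using h),
      Set.ncard_univ, Nat.card_eq_fintype_card, Fintype.card_fin]
  | cl i z =>
    rw [← natcard_F9]
    refine ncard_insert_range (Ln.inf i) (fun c => Ln.ln i z c) (fun z w h => by simpa using h)
      (fun z => by simp) _ (fun x => ?_)
    cases x <;> simp [Inc, eq_comm]
  | aff x y c =>
    have h : {l | Inc (Pt.aff x y c) l} =
        Set.range (fun i => Ln.ln i (zc i x y) (cc i x y c)) := by
      ext l; cases l with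
      | inf i => simp [Inc]
      | ln i z d =>
        simp only [Set.mem_setOf_eq, Inc, Set.mem_range, Ln.ln.injEq]
        constructor
        · rintro ⟨rfl, rfl⟩; exact ⟨i, rfl, rfl, rfl⟩
        · rintro ⟨j, rfl, h1, h2⟩; exact ⟨h1.symm, h2.symm⟩
    rw [h, ← Set.image_univ, Set.ncard_image_of_injective _ (fun a b h => by
      simp only [Ln.ln.injEq] at h; exact h.1),
      Set.ncard_univ, Nat.card_eq_fintype_card, Fintype.card_fin]

/-- two coordinates determine the class -/
theorem class_of_two {i j : Fin 10} (h : i ≠ j) {x y x' y' : V} (h1 : zc i x y = zc i x' y')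
    (h2 : zc j x y = zc j x' y') : x = x' ∧ y = y' := by
  have hu : S j (y - y') - S i (y - y') = 0 := by
    rw [S_sub, S_sub]
    simp only [zc] at h1 h2
    have e1 : S i y = x - x' + S i y' := by
      have : x - S i y - (x' - S i y') = 0 := by rw [h1]; abel
      have h3 : x - x' + S i y' - S i y = 0 := by rw [← this]; abel
      exact (sub_eq_zero.1 h3).symm
    have e2 : S j y = x - x' + S j y' := by
      have : x - S j y - (x' - S j y') = 0 := by rw [h2]; abel
      have h3 : x - x' + S j y' - S j y = 0 := by rw [← this]; abel
      exact (sub_eq_zero.1 h3).symm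
    rw [e1, e2]; abel
  have hy : y = y' := sub_eq_zero.1 (D_inj h hu)
  subst hy
  refine ⟨?_, rfl⟩
  simp only [zc] at h1
  exact sub_left_injective h1

theorem inc_two (p p' : Pt) (l l' : Ln) (hp : p ≠ p') (h1 : Inc p l) (h2 : Inc p' l)
    (h3 : Inc p l') (h4 : Inc p' l') : l = l' := by
  cases p with
  | inf =>
    cases l with
    | ln i z c => exact h1.elim
    | inf i =>
      cases l' with
      | ln i z c => exact h3.elim
      | inf j =>
        cases p' with
        | inf => exact absurd rfl hp
        | cl k w => simp only [Inc] at h2 h4; rw [← h2, ← h4]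
        | aff x y c => exact h2.elim
  | cl i z =>
    cases p' with
    | inf =>
      cases l with
      | ln i z c => exact h2.elim
      | inf i =>
        cases l' with
        | ln i z c => exact h4.elim
        | inf j => simp only [Inc] at h1 h3; rw [← h1, ← h3]
    | cl j w =>
      cases l with
      | inf k =>
        cases l' with
        | inf m => simp only [Inc] at h1 h3; rw [← h1, ← h3]
        | ln m u d =>
          simp only [Inc] at h1 h2 h3 h4
          exact absurd (by rw [h3.1, h3.2, h4.1, h4.2]) hp
      | ln k u d =>
        simp only [Inc] at h1 h2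
        exact absurd (by rw [h1.1, h1.2, h2.1, h2.2]) hp
    | aff x y c =>
      cases l with
      | inf k => exact h2.elim
      | ln k u d =>
        cases l' with
        | inf m => exact h4.elim
        | ln m w e =>
          simp only [Inc] at h1 h2 h3 h4
          obtain ⟨rfl, rfl⟩ := h1
          obtain ⟨rfl, rfl⟩ := h3
          rw [h2.2, h4.2]
  | aff x y c =>
    cases l with
    | inf k => exact h1.elim
    | ln k u d =>
      cases l' with
      | inf m => exact h3.elim
      | ln m w e =>
        simp only [Inc] at h1 h3
        cases p' with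
        | inf => exact h2.elim
        | cl j v =>
          simp only [Inc] at h2 h4
          obtain ⟨rfl, rfl⟩ := h2
          obtain ⟨rfl, rfl⟩ := h4
          rw [h1.2, h3.2]
        | aff x' y' c' =>
          simp only [Inc] at h2 h4
          by_cases hkm : k = m
          · subst hkm; rw [h1.1, h1.2, h3.1, h3.2]
          · obtain ⟨rfl, rfl⟩ := class_of_two hkm (h1.1.symm.trans h2.1) (h3.1.symm.trans h4.1)
            have : c = c' := by
              have := h1.2.symm.trans h2.2
              simp only [cc] at this
              exact sub_left_injective this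
            exact absurd (by rw [this]) hp

end Pool.Agent.Helper38.HS
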