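import Pool.Agent.Helper95.HS.Stmts

/-!
# Row LGA of the sheet HS (MP_56acfd_mp)
-/

set_option autoImplicit false

namespace Pool.Agent.Helper38.HS

open MeasureTheory Filter Pool.Agent.Helper95.PW Pool.Agent.Helper95.HS

theorem point (a b ε : ℝ) (hε : 0 < ε) :
    |a ^ 2 - b ^ 2| ≤ (1 + 1 / ε) * (a - b) ^ 2 + ε * b ^ 2 := by
  have h1 : |a ^ 2 - b ^ 2| ≤ (a - b) ^ 2 + 2 * |b| * |a - b| := by
    have h : a ^ 2 - b ^ 2 = (a - b) ^ 2 + 2 * b * (a - b) := by ring
    rw [h]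
    refine (abs_add_le _ _).trans ?_
    rw [abs_of_nonneg (sq_nonneg (a - b)), abs_mul, abs_mul, abs_two]
  have h2 : 2 * |b| * |a - b| ≤ ε * b ^ 2 + 1 / ε * (a - b) ^ 2 := by
    have h3 := sq_nonneg (ε * |b| - |a - b|)
    rw [← sq_abs b, ← sq_abs (a - b)]
    have h4 : ε * |b| ^ 2 + 1 / ε * |a - b| ^ 2 - 2 * |b| * |a - b| =
        (ε * |b| - |a - b|) ^ 2 / ε := by
      field_simp
      ring
    have h5 : 0 ≤ (ε * |b| - |a - b|) ^ 2 / ε := div_nonneg h3 hε.le
    linarith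
  linarith

/-- row LGA -/
theorem LGA : ST_LGA := by
  intro n φ u w B hw hB hφ hu hlim
  obtain ⟨W, hW⟩ : ∃ W : Cf n → ℝ, W = fun x => ∑ k, w (x k) := ⟨_, rfl⟩
  have hWc : Continuous W := by
    rw [hW]
    exact continuous_finset_sum _ fun k _ => hw.comp (continuous_apply k)
  have hB0 : 0 ≤ B := (abs_nonneg _).trans (hB 0)
  have hWB : ∀ x, |W x| ≤ n * B := by
    intro x
    rw [hW]
    refine (Finset.abs_sum_le_sum_abs _ _).trans ?_
    refine (Finset.sum_le_sum fun k _ => hB (x k)).trans ?_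
    simp
  have hnB : 0 ≤ (n : ℝ) * B := by positivity
  have huL : ∀ j s, MemLp (u j s) 2 := fun j s =>
    ((hu j s).1.continuous).memLp_of_hasCompactSupport (hu j s).2
  have hWi : ∀ v : Cf n → ℝ, MemLp v 2 → Integrable (fun x => W x * v x ^ 2) := by
    intro v hv
    refine (hv.integrable_sq.const_mul (n * B)).mono'
      (hWc.aestronglyMeasurable.mul hv.integrable_sq.aestronglyMeasurable) ?_
    refine Eventually.of_forall fun x => ?_
    rw [Real.norm_eq_abs, abs_mul, abs_of_nonneg (sq_nonneg (v x))]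
    exact mul_le_mul_of_nonneg_right (hWB x) (sq_nonneg _)
  have hone : ∀ v : Wf n, one w v = ∑ s, ∫ x, W x * v s x ^ 2 := by
    intro v
    rw [hW]
    rfl
  have hest : ∀ j (ε : ℝ), 0 < ε → |one w (u j) - one w φ| ≤
      n * B * ((1 + 1 / ε) * Pool.Agent.Helper95.PW.sq (fun s x => u j s x - φ s x) + ε * Pool.Agent.Helper95.PW.sq φ) := by
    intro j ε hε
    rw [hone, hone, ← Finset.sum_sub_distrib]
    refine (Finset.abs_sum_le_sum_abs _ _).trans ?_
    unfold Pool.Agent.Helper95.PW.sq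
    rw [Finset.mul_sum, Finset.mul_sum, ← Finset.sum_add_distrib, Finset.mul_sum]
    refine Finset.sum_le_sum fun s _ => ?_
    have hd : MemLp (fun x => u j s x - φ s x) 2 := (huL j s).sub (hφ s)
    rw [← integral_sub (hWi _ (huL j s)) (hWi _ (hφ s)), ← integral_const_mul,
      ← integral_const_mul, ← integral_add (hd.integrable_sq.const_mul _)
      ((hφ s).integrable_sq.const_mul _), ← integral_const_mul, ← Real.norm_eq_abs]
    refine norm_integral_le_of_norm_le (((hd.integrable_sq.const_mul _).add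
      ((hφ s).integrable_sq.const_mul _)).const_mul _) (Eventually.of_forall fun x => ?_)
    rw [Real.norm_eq_abs, ← mul_sub, abs_mul]
    exact mul_le_mul (hWB x) (point _ _ ε hε) (abs_nonneg _) hnB
  obtain ⟨δ, hδ⟩ : ∃ δ : ℕ → ℝ, δ = fun j => Pool.Agent.Helper95.PW.sq (fun s x => u j s x - φ s x) := ⟨_, rfl⟩
  have hδ0 : ∀ j, 0 ≤ δ j := by
    intro j
    rw [hδ]
    exact Finset.sum_nonneg fun s _ => integral_nonneg fun x => sq_nonneg _
  have hδl : Tendsto δ atTop (nhds 0) := by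
    rw [hδ]
    exact hlim
  have hsl : Tendsto (fun j => Real.sqrt (δ j)) atTop (nhds 0) := by
    have h := (Real.continuous_sqrt.tendsto 0).comp hδl
    rw [Real.sqrt_zero] at h
    exact h
  have hel : Tendsto (fun j : ℕ => Real.sqrt (δ j) + 1 / ((j : ℝ) + 1)) atTop (nhds 0) := by
    have h := hsl.add (tendsto_one_div_add_atTop_nhds_zero_nat (𝕜 := ℝ))
    rw [add_zero] at h
    exact h
  have hb : Tendsto (fun j : ℕ => n * B * (δ j + Real.sqrt (δ j) +
      (Real.sqrt (δ j) + 1 / ((j : ℝ) + 1)) * Pool.Agent.Helper95.PW.sq φ)) atTop (nhds 0) := by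
    have h := ((hδl.add hsl).add (hel.mul_const (Pool.Agent.Helper95.PW.sq φ))).const_mul (n * B)
    simp only [zero_mul, add_zero, mul_zero] at h
    exact h
  rw [tendsto_iff_dist_tendsto_zero]
  refine squeeze_zero (fun j => dist_nonneg) (fun j => ?_) hb
  rw [Real.dist_eq]
  have hε : 0 < Real.sqrt (δ j) + 1 / ((j : ℝ) + 1) := by positivity
  refine (hest j _ hε).trans (mul_le_mul_of_nonneg_left ?_ hnB)
  have h1 : Pool.Agent.Helper95.PW.sq (fun s x => u j s x - φ s x) = δ j := by rw [hδ]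
  rw [h1]
  have h2 : 1 / (Real.sqrt (δ j) + 1 / ((j : ℝ) + 1)) * δ j ≤ Real.sqrt (δ j) := by
    rw [div_mul_eq_mul_div, one_mul, div_le_iff₀ hε]
    have h3 : δ j = Real.sqrt (δ j) * Real.sqrt (δ j) := (Real.mul_self_sqrt (hδ0 j)).symm
    have h4 : 0 ≤ Real.sqrt (δ j) * (1 / ((j : ℝ) + 1)) := by positivity
    rw [mul_add]
    linarith
  have h5 : (1 + 1 / (Real.sqrt (δ j) + 1 / ((j : ℝ) + 1))) * δ j =
      δ j + 1 / (Real.sqrt (δ j) + 1 / ((j : ℝ) + 1)) * δ j := by ring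
  rw [h5]
  linarith

end Pool.Agent.Helper38.HS
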