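import Pool.Agent.Helper38.HS.F9
import Pool.Agent.Helper38.HS.Def

/-! The generalized quadrangle of order (81, 9) (dual flock quadrangle of Fisher type). -/

namespace Pool.Agent.Helper38.HS

abbrev V : Type := F9 × F9

def dot (u v : V) : F9 := u.1 * v.1 + u.2 * v.2

/-- the entries of the ten symmetric matrices -/
def Sa (i : Fin 10) : F9 := el (([2, 0, 6, 6, 1, 2, 0, 3, 3, 1] : List ℕ).getD i.val 0)
def Sb (i : Fin 10) : F9 := el (([7, 8, 6, 3, 3, 4, 5, 3, 6, 6] : List ℕ).getD i.val 0)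
def Sd (i : Fin 10) : F9 := el (([3, 7, 0, 4, 3, 6, 4, 0, 7, 6] : List ℕ).getD i.val 0)

def S (i : Fin 10) (v : V) : V := (Sa i * v.1 + Sb i * v.2, Sb i * v.1 + Sd i * v.2)

inductive Pt : Type
  | inf : Pt
  | cl (i : Fin 10) (z : V) : Pt
  | aff (x y : V) (c : F9) : Pt
  deriving DecidableEq, Fintype

inductive Ln : Type
  | inf (i : Fin 10) : Ln
  | ln (i : Fin 10) (z : V) (c : F9) : Ln
  deriving DecidableEq, Fintype

def zc (i : Fin 10) (x y : V) : V := x - S i y
def cc (i : Fin 10) (x y : V) (c : F9) : F9 := c - dot y (zc i x y)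

/-- incidence -/
def Inc : Pt → Ln → Prop
  | Pt.inf, Ln.inf _ => True
  | Pt.inf, Ln.ln _ _ _ => False
  | Pt.cl i _, Ln.inf j => i = j
  | Pt.cl i z, Ln.ln j w _ => i = j ∧ z = w
  | Pt.aff _ _ _, Ln.inf _ => False
  | Pt.aff x y c, Ln.ln i z d => z = zc i x y ∧ d = cc i x y c

def dt (i j : Fin 10) : F9 := (Sa j - Sa i) * (Sd j - Sd i) - (Sb j - Sb i) * (Sb j - Sb i)

/-- the solution u of (S j - S i) u = r -/
def Dinv (i j : Fin 10) (r : V) : V :=
  ((dt i j)⁻¹ * ((Sd j - Sd i) * r.1 - (Sb j - Sb i) * r.2),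
   (dt i j)⁻¹ * ((Sa j - Sa i) * r.2 - (Sb j - Sb i) * r.1))

theorem dt_ne : ∀ i j : Fin 10, i ≠ j → dt i j ≠ 0 := by decide

theorem S_add (i : Fin 10) (u v : V) : S i (u + v) = S i u + S i v := by
  ext <;> simp [S] <;> ring

theorem S_sub (i : Fin 10) (u v : V) : S i (u - v) = S i u - S i v := by
  ext <;> simp [S] <;> ring

theorem S_zero (i : Fin 10) : S i 0 = 0 := by
  ext <;> simp [S]

theorem dot_add (u v w : V) : dot u (v + w) = dot u v + dot u w := by
  simp [dot]; ring

theorem dot_sub (u v w : V) : dot u (v - w) = dot u v - dot u w := by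
  simp [dot]; ring

theorem add_dot (u v w : V) : dot (u + v) w = dot u w + dot v w := by
  simp [dot]; ring

theorem sub_dot (u v w : V) : dot (u - v) w = dot u w - dot v w := by
  simp [dot]; ring

theorem dot_comm (u v : V) : dot u v = dot v u := by
  simp [dot]; ring

theorem dot_S (i : Fin 10) (u v : V) : dot u (S i v) = dot (S i u) v := by
  simp [dot, S]; ring

theorem Dinv_spec {i j : Fin 10} (h : i ≠ j) (r : V) :
    S j (Dinv i j r) - S i (Dinv i j r) = r := by
  have hd : dt i j * (dt i j)⁻¹ = 1 := mul_inv_cancel₀ (dt_ne i j h)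
  ext
  · simp only [S, Dinv, Prod.fst_sub]
    linear_combination r.1 * hd + (r.1 * (dt i j)⁻¹) * (by unfold dt; ring :
      ((Sa j - Sa i) * (Sd j - Sd i) - (Sb j - Sb i) * (Sb j - Sb i)) - dt i j = 0)
  · simp only [S, Dinv, Prod.snd_sub]
    linear_combination r.2 * hd + (r.2 * (dt i j)⁻¹) * (by unfold dt; ring :
      ((Sa j - Sa i) * (Sd j - Sd i) - (Sb j - Sb i) * (Sb j - Sb i)) - dt i j = 0)

theorem D_inj {i j : Fin 10} (h : i ≠ j) {u : V} (hu : S j u - S i u = 0) : u = 0 := by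
  have hd : dt i j ≠ 0 := dt_ne i j h
  have h1 : (Sa j - Sa i) * u.1 + (Sb j - Sb i) * u.2 = 0 := by
    have := congrArg Prod.fst hu; simp [S] at this; linear_combination this
  have h2 : (Sb j - Sb i) * u.1 + (Sd j - Sd i) * u.2 = 0 := by
    have := congrArg Prod.snd hu; simp [S] at this; linear_combination this
  ext
  · have : dt i j * u.1 = 0 := by
      unfold dt; linear_combination (Sd j - Sd i) * h1 - (Sb j - Sb i) * h2
    simpa [hd] using this
  · have : dt i j * u.2 = 0 := by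
      unfold dt; linear_combination (Sa j - Sa i) * h2 - (Sb j - Sb i) * h1
    simpa [hd] using this

/-- the value of the quadratic form -/
def val (i j : Fin 10) (r : V) : F9 := dot (Dinv i j r) r

end Pool.Agent.Helper38.HS
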