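import Pool.Agent.Helper38.HS.GQ

namespace Pool.Agent.Helper38.HS

theorem x_of_zc {j : Fin 10} {x y x' y' : V} (h : zc j x' y' = zc j x y) :
    x = x' + S j (y - y') := by
  simp only [zc] at h
  rw [S_sub]
  have : x' - S j y' + S j y = x := by rw [h]; abel
  rw [← this]; abel

theorem r_eq {i j : Fin 10} {x y x' y' : V} (h : zc j x' y' = zc j x y) :
    zc i x y - zc i x' y' = S j (y - y') - S i (y - y') := by
  rw [x_of_zc h]
  simp only [zc, S_sub]; abel

theorem cc_iff {i j : Fin 10} {x y x' y' : V} (c c' : F9) (h : zc j x' y' = zc j x y) :
    cc j x' y' c' = cc j x y c ↔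
      dot (y - y') (zc i x y - zc i x' y') =
        c - cc i x' y' c' + dot y (zc i x' y') + dot y (zc i x y) := by
  have h3 := three9
  have hx := x_of_zc h
  have key : (cc j x' y' c' - cc j x y c) -
      (dot (y - y') (zc i x y - zc i x' y') -
        (c - cc i x' y' c' + dot y (zc i x' y') + dot y (zc i x y))) = 0 := by
    subst hx
    simp only [cc, zc, dot, S, Prod.fst_sub, Prod.snd_sub, Prod.fst_add, Prod.snd_add]
    linear_combination (y.1 * (x'.1 - (Sa i * y'.1 + Sb i * y'.2)) +
      y.2 * (x'.2 - (Sb i * y'.1 + Sd i * y'.2))) * h3
  constructor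
  · intro h1
    have : cc j x' y' c' - cc j x y c = 0 := sub_eq_zero.2 h1
    rw [this] at key
    linear_combination -key
  · intro h1
    rw [h1] at key
    linear_combination key

theorem u_eq {i j : Fin 10} (hij : i ≠ j) {x y x' y' : V} (h : zc j x' y' = zc j x y) :
    y - y' = Dinv i j (zc i x y - zc i x' y') := by
  have h1 := r_eq (i := i) h
  have h2 := Dinv_spec hij (zc i x y - zc i x' y')
  have h3 : S j (y - y' - Dinv i j (zc i x y - zc i x' y')) -
      S i (y - y' - Dinv i j (zc i x y - zc i x' y')) = 0 := by
    rw [S_sub j, S_sub i]
    have : S j (y - y') - S j (Dinv i j (zc i x y - zc i x' y')) -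
      (S i (y - y') - S i (Dinv i j (zc i x y - zc i x' y'))) =
      (S j (y - y') - S i (y - y')) - (S j (Dinv i j (zc i x y - zc i x' y')) -
      S i (Dinv i j (zc i x y - zc i x' y'))) := by abel
    rw [this, h2, ← h1, sub_self]
  exact sub_eq_zero.1 (D_inj hij h3)

theorem cc_inj {j : Fin 10} {x y : V} {c c' : F9} (h : cc j x y c = cc j x y c') : c = c' := by
  simp only [cc] at h
  exact sub_left_injective h

theorem inc_proj (p : Pt) (l : Ln) (hpl : ¬ Inc p l) :
    ∃! p', Inc p' l ∧ ∃ m, Inc p m ∧ Inc p' m := by
  cases p with
  | inf =>
    cases l with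
    | inf i => exact absurd trivial hpl
    | ln i z c =>
      refine ⟨Pt.cl i z, ⟨⟨rfl, rfl⟩, Ln.inf i, trivial, rfl⟩, ?_⟩
      rintro p' ⟨h1, m, h2, h3⟩
      cases m with
      | ln _ _ _ => exact h2.elim
      | inf j =>
        cases p' with
        | inf => exact h1.elim
        | cl k w => simp only [Inc] at h1; rw [h1.1, h1.2]
        | aff _ _ _ => exact h3.elim
  | cl j w =>
    cases l with
    | inf i =>
      have hji : j ≠ i := hpl
      refine ⟨Pt.inf, ⟨trivial, Ln.inf j, rfl, trivial⟩, ?_⟩
      rintro p' ⟨h1, m, h2, h3⟩
      cases p' with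
      | inf => rfl
      | aff _ _ _ => exact h1.elim
      | cl k u =>
        simp only [Inc] at h1
        subst h1
        cases m with
        | inf m => simp only [Inc] at h2 h3; exact absurd (h2.trans h3.symm) hji
        | ln m _ _ => simp only [Inc] at h2 h3; exact absurd (h2.1.trans h3.1.symm) hji
    | ln i z c =>
      by_cases hji : j = i
      · subst hji
        have hwz : w ≠ z := fun h => hpl ⟨rfl, h⟩
        refine ⟨Pt.cl j z, ⟨⟨rfl, rfl⟩, Ln.inf j, rfl, rfl⟩, ?_⟩
        rintro p' ⟨h1, m, h2, h3⟩
        cases p' with
        | inf => exact h1.elim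
        | cl k u => simp only [Inc] at h1; rw [h1.1, h1.2]
        | aff x y d =>
          cases m with
          | inf m => exact h3.elim
          | ln m v e =>
            simp only [Inc] at h1 h2 h3
            obtain ⟨rfl, rfl⟩ := h2
            exact absurd (h3.1.trans h1.1.symm) hwz
      · have hij : i ≠ j := fun h => hji h.symm
        have hD := Dinv_spec hij (z - w)
        set y := Dinv i j (z - w) with hy
        have hzi : z = zc i (z + S i y) y := by rw [zc]; abel
        have hzj : w = zc j (z + S i y) y := by
          rw [zc]
          have : z + S i y - S j y = z - (S j y - S i y) := by abel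
          rw [this, hD]; abel
        have hcc : c = cc i (z + S i y) y (c + dot y z) := by
          rw [cc, ← hzi]; ring
        refine ⟨Pt.aff (z + S i y) y (c + dot y z), ⟨⟨hzi, hcc⟩,
          Ln.ln j w (cc j (z + S i y) y (c + dot y z)), ⟨rfl, rfl⟩, ⟨hzj, rfl⟩⟩, ?_⟩
        rintro p' ⟨h1, m, h2, h3⟩
        cases p' with
        | inf => exact h1.elim
        | cl k u =>
          simp only [Inc] at h1
          cases m with
          | inf m =>
            simp only [Inc] at h2 h3
            exact absurd (h2.trans (h3.symm.trans h1.1)) hji
          | ln m _ _ =>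
            simp only [Inc] at h2 h3
            exact absurd (h2.1.trans (h3.1.symm.trans h1.1)) hji
        | aff x' y' d =>
          cases m with
          | inf m => exact h3.elim
          | ln m v e =>
            simp only [Inc] at h1 h2 h3
            obtain ⟨rfl, rfl⟩ := h2
            obtain ⟨hx, hy'⟩ := class_of_two hij (h1.1.symm.trans hzi) (h3.1.symm.trans hzj)
            subst hx hy'
            have := cc_inj (h1.2.symm.trans hcc)
            rw [this]
  | aff x y c0 =>
    cases l with
    | inf i =>
      refine ⟨Pt.cl i (zc i x y), ⟨rfl, Ln.ln i (zc i x y) (cc i x y c0), ⟨rfl, rfl⟩, ⟨rfl, rfl⟩⟩, ?_⟩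
      rintro p' ⟨h1, m, h2, h3⟩
      cases m with
      | inf m => exact h2.elim
      | ln m v e =>
        cases p' with
        | inf => exact h3.elim
        | aff _ _ _ => exact h1.elim
        | cl k u =>
          simp only [Inc] at h1 h2 h3
          subst h1
          obtain ⟨rfl, rfl⟩ := h3
          rw [h2.1]
    | ln i z d =>
      by_cases hz : zc i x y = z
      · subst hz
        have hd : d ≠ cc i x y c0 := fun h => hpl ⟨rfl, h⟩
        refine ⟨Pt.cl i (zc i x y), ⟨⟨rfl, rfl⟩, Ln.ln i (zc i x y) (cc i x y c0), ⟨rfl, rfl⟩,
          ⟨rfl, rfl⟩⟩, ?_⟩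
        rintro p' ⟨h1, m, h2, h3⟩
        cases m with
        | inf m => exact h2.elim
        | ln m v e =>
          cases p' with
          | inf => exact h1.elim
          | cl k u => simp only [Inc] at h1; rw [h1.1, h1.2]
          | aff x' y' c' =>
            exfalso
            simp only [Inc] at h1 h2 h3
            by_cases hmi : i = m
            · subst hmi
              exact hd (h1.2.trans (h3.2.symm.trans h2.2))
            · obtain ⟨rfl, rfl⟩ := class_of_two hmi h1.1 (h2.1.symm.trans h3.1)
              have := cc_inj (h2.2.symm.trans h3.2)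
              subst this
              exact hd h1.2
      · have hr : zc i x y - z ≠ 0 := fun h => hz (sub_eq_zero.1 h)
        set K : F9 := c0 - d + dot y z + dot y (zc i x y) with hK
        obtain ⟨j, hji, hj⟩ := blt_exists i _ hr K
        have hij : i ≠ j := fun h => hji h.symm
        set u := Dinv i j (zc i x y - z) with hu
        have hD : S j u - S i u = zc i x y - z := Dinv_spec hij _
        set y' := y - u with hy'
        set x' := z + S i y' with hx'
        have hzi : z = zc i x' y' := by rw [hx', zc]; abel
        have hcci : d = cc i x' y' (d + dot y' z) := by rw [cc, ← hzi]; ring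
        have hzj : zc j x' y' = zc j x y := by
          rw [zc, zc, hx', hy', S_sub, S_sub]
          have e : z + (S i y - S i u) - (S j y - S j u) =
            z + (S j u - S i u) + S i y - S j y := by abel
          rw [e, hD, zc]; abel
        have hyy : y - y' = u := by rw [hy']; abel
        have hccj : cc j x' y' (d + dot y' z) = cc j x y c0 := by
          rw [cc_iff (i := i) _ _ hzj, ← hcci, ← hzi, hyy]
          exact hj
        refine ⟨Pt.aff x' y' (d + dot y' z), ⟨⟨hzi, hcci⟩, Ln.ln j (zc j x y) (cc j x y c0),
          ⟨rfl, rfl⟩, ⟨hzj.symm, hccj.symm⟩⟩, ?_⟩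
        rintro p' ⟨h1, m, h2, h3⟩
        cases m with
        | inf m => exact h2.elim
        | ln m v e =>
          cases p' with
          | inf => exact h1.elim
          | cl k w =>
            simp only [Inc] at h1 h2 h3
            obtain ⟨rfl, rfl⟩ := h1
            obtain ⟨rfl, rfl⟩ := h3
            exact absurd h2.1.symm hz
          | aff x2 y2 c2 =>
            simp only [Inc] at h1 h2 h3
            have hmi : m ≠ i := by
              rintro rfl
              exact hz (h2.1.symm.trans (h3.1.trans h1.1.symm))
            have him : i ≠ m := fun h => hmi h.symm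
            have hz2 : zc m x2 y2 = zc m x y := h3.1.symm.trans h2.1
            have hu2 := u_eq him hz2
            rw [← h1.1] at hu2
            have hv : val i m (zc i x y - z) = K := by
              have := (cc_iff (i := i) c0 c2 hz2).1 (h3.2.symm.trans h2.2)
              rw [← h1.1, ← h1.2, hu2] at this
              exact this
            have hmj : m = j := blt_inj i _ hr hmi hji (hv.trans hj.symm)
            subst hmj
            have hy2 : y2 = y' := by
              rw [hy', ← hu2.trans hu.symm]; abel
            subst hy2
            have hx2 : x2 = x' := by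
              have := h1.1.symm.trans hzi
              simp only [zc] at this
              exact sub_left_injective this
            subst hx2
            have := cc_inj (h1.2.symm.trans hcci)
            rw [this]

theorem isGQ : IsGQ Inc (9 ^ 2) 9 where
  nonempty := ⟨Pt.inf⟩
  points := inc_points
  lines := inc_lines
  two := inc_two
  proj := inc_proj

end Pool.Agent.Helper38.HS
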