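import Pool.Agent.Helper38.HS.Proj

/-! The point at infinity is the only regular point. -/

namespace Pool.Agent.Helper38.HS

def Coll (p q : Pt) : Prop := ∃ m, Inc p m ∧ Inc q m

/-- decidable description of collinearity -/
def collB : Pt → Pt → Bool
  | Pt.inf, Pt.inf => true
  | Pt.inf, Pt.cl _ _ => true
  | Pt.inf, Pt.aff _ _ _ => false
  | Pt.cl _ _, Pt.inf => true
  | Pt.cl i _, Pt.cl j _ => decide (i = j)
  | Pt.cl i z, Pt.aff x y _ => decide (z = zc i x y)
  | Pt.aff _ _ _, Pt.inf => false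
  | Pt.aff x y _, Pt.cl i z => decide (z = zc i x y)
  | Pt.aff x y c, Pt.aff x' y' c' =>
    decide (∃ j : Fin 10, zc j x y = zc j x' y' ∧ cc j x y c = cc j x' y' c')

theorem coll_iff (p q : Pt) : Coll p q ↔ collB p q = true := by
  constructor
  · rintro ⟨m, h1, h2⟩
    cases m with
    | inf m =>
      cases p with
      | inf => cases q with
        | inf => rfl
        | cl _ _ => rfl
        | aff _ _ _ => exact h2.elim
      | cl i z => cases q with
        | inf => rfl
        | cl j w =>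
          simp only [Inc] at h1 h2
          simp [collB, h1, h2]
        | aff _ _ _ => exact h2.elim
      | aff _ _ _ => exact h1.elim
    | ln m v e =>
      cases p with
      | inf => exact h1.elim
      | cl i z => cases q with
        | inf => exact h2.elim
        | cl j w =>
          simp only [Inc] at h1 h2
          simp [collB, h1.1, h2.1]
        | aff x y c =>
          simp only [Inc] at h1 h2
          obtain ⟨rfl, rfl⟩ := h1
          simp [collB, h2.1]
      | aff x y c => cases q with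
        | inf => exact h2.elim
        | cl j w =>
          simp only [Inc] at h1 h2
          obtain ⟨rfl, rfl⟩ := h2
          simp [collB, h1.1]
        | aff x' y' c' =>
          simp only [Inc] at h1 h2
          simp only [collB, decide_eq_true_eq]
          exact ⟨m, h1.1.symm.trans h2.1, h1.2.symm.trans h2.2⟩
  · intro h
    cases p with
    | inf => cases q with
      | inf => exact ⟨Ln.inf 0, trivial, trivial⟩
      | cl j w => exact ⟨Ln.inf j, trivial, rfl⟩
      | aff _ _ _ => simp [collB] at h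
    | cl i z => cases q with
      | inf => exact ⟨Ln.inf i, rfl, trivial⟩
      | cl j w =>
        simp only [collB, decide_eq_true_eq] at h
        exact ⟨Ln.inf i, rfl, h.symm⟩
      | aff x y c =>
        simp only [collB, decide_eq_true_eq] at h
        exact ⟨Ln.ln i z (cc i x y c), ⟨rfl, rfl⟩, ⟨h, rfl⟩⟩
    | aff x y c => cases q with
      | inf => simp [collB] at h
      | cl j w =>
        simp only [collB, decide_eq_true_eq] at h
        exact ⟨Ln.ln j w (cc j x y c), ⟨h, rfl⟩, ⟨rfl, rfl⟩⟩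
      | aff x' y' c' =>
        simp only [collB, decide_eq_true_eq] at h
        obtain ⟨j, h1, h2⟩ := h
        exact ⟨Ln.ln j (zc j x y) (cc j x y c), ⟨rfl, rfl⟩, ⟨h1, h2⟩⟩

def Reg (p : Pt) : Prop := ∀ q, ¬ Coll p q → ∀ r r', Coll r p → Coll r q → Coll r' p →
  Coll r' q → r ≠ r' → ∀ x, Coll x r → Coll x r' → ∀ r'', Coll r'' p → Coll r'' q → Coll x r''

def witB (p q r r' x r'' : Pt) : Bool :=
  !collB p q && collB r p && collB r q && collB r' p && collB r' q && decide (r ≠ r') &&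
    collB x r && collB x r' && collB r'' p && collB r'' q && !collB x r''

theorem notReg_of_wit (p q r r' x r'' : Pt) (h : witB p q r r' x r'' = true) : ¬ Reg p := by
  intro hp
  simp only [witB, Bool.and_eq_true, Bool.not_eq_true', decide_eq_true_eq] at h
  obtain ⟨⟨⟨⟨⟨⟨⟨⟨⟨⟨h1, h2⟩, h3⟩, h4⟩, h5⟩, h6⟩, h7⟩, h8⟩, h9⟩, h10⟩, h11⟩ := h
  have := hp q (by rw [coll_iff, h1]; simp) r r' ((coll_iff _ _).2 h2) ((coll_iff _ _).2 h3)
    ((coll_iff _ _).2 h4) ((coll_iff _ _).2 h5) h6 x ((coll_iff _ _).2 h7) ((coll_iff _ _).2 h8)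
    r'' ((coll_iff _ _).2 h9) ((coll_iff _ _).2 h10)
  rw [coll_iff, h11] at this
  exact absurd this (by simp)

theorem notReg0 : ¬ Reg (Pt.cl 0 (el 0, el 0)) := by
  apply notReg_of_wit (Pt.cl 0 (el 0, el 0)) (Pt.aff (el 3, el 5) (el 7, el 8) (el 7)) (Pt.cl 0 (el 0, el 4)) (Pt.aff (el 4, el 1) (el 8, el 0) (el 7)) (Pt.aff (el 0, el 1) (el 7, el 1) (el 7)) (Pt.aff (el 7, el 1) (el 2, el 5) (el 8))
  decide

theorem notReg1 : ¬ Reg (Pt.cl 1 (el 0, el 0)) := by
  apply notReg_of_wit (Pt.cl 1 (el 0, el 0)) (Pt.aff (el 7, el 4) (el 6, el 8) (el 0)) (Pt.cl 1 (el 1, el 1)) (Pt.aff (el 0, el 8) (el 1, el 0) (el 1)) (Pt.aff (el 0, el 4) (el 8, el 5) (el 0)) (Pt.aff (el 6, el 2) (el 7, el 8) (el 3))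
  decide

theorem notReg2 : ¬ Reg (Pt.cl 2 (el 0, el 0)) := by
  apply notReg_of_wit (Pt.cl 2 (el 0, el 0)) (Pt.aff (el 2, el 8) (el 1, el 1) (el 1)) (Pt.cl 2 (el 8, el 2)) (Pt.aff (el 0, el 1) (el 3, el 6) (el 2)) (Pt.aff (el 0, el 4) (el 8, el 6) (el 1)) (Pt.aff (el 1, el 1) (el 3, el 0) (el 8))
  decide

theorem notReg3 : ¬ Reg (Pt.cl 3 (el 0, el 0)) := by
  apply notReg_of_wit (Pt.cl 3 (el 0, el 0)) (Pt.aff (el 0, el 1) (el 1, el 6) (el 1)) (Pt.cl 3 (el 5, el 0)) (Pt.aff (el 1, el 6) (el 4, el 1) (el 2)) (Pt.aff (el 2, el 0) (el 3, el 5) (el 1)) (Pt.aff (el 2, el 7) (el 2, el 5) (el 8))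
  decide

theorem notReg4 : ¬ Reg (Pt.cl 4 (el 0, el 0)) := by
  apply notReg_of_wit (Pt.cl 4 (el 0, el 0)) (Pt.aff (el 5, el 3) (el 8, el 2) (el 6)) (Pt.cl 4 (el 0, el 2)) (Pt.aff (el 0, el 4) (el 6, el 1) (el 8)) (Pt.aff (el 1, el 4) (el 6, el 7) (el 6)) (Pt.aff (el 0, el 6) (el 7, el 4) (el 5))
  decide

theorem notReg5 : ¬ Reg (Pt.cl 5 (el 0, el 0)) := by
  apply notReg_of_wit (Pt.cl 5 (el 0, el 0)) (Pt.aff (el 7, el 7) (el 0, el 4) (el 3)) (Pt.cl 5 (el 1, el 0)) (Pt.aff (el 0, el 0) (el 0, el 0) (el 3)) (Pt.aff (el 0, el 6) (el 7, el 4) (el 3)) (Pt.aff (el 2, el 4) (el 1, el 0) (el 4))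
  decide

theorem notReg6 : ¬ Reg (Pt.cl 6 (el 0, el 0)) := by
  apply notReg_of_wit (Pt.cl 6 (el 0, el 0)) (Pt.aff (el 0, el 7) (el 6, el 3) (el 1)) (Pt.cl 6 (el 4, el 1)) (Pt.aff (el 1, el 2) (el 1, el 4) (el 6)) (Pt.aff (el 0, el 0) (el 7, el 3) (el 1)) (Pt.aff (el 1, el 6) (el 0, el 4) (el 5))
  decide

theorem notReg7 : ¬ Reg (Pt.cl 7 (el 0, el 0)) := by
  apply notReg_of_wit (Pt.cl 7 (el 0, el 0)) (Pt.aff (el 8, el 7) (el 1, el 3) (el 6)) (Pt.cl 7 (el 3, el 4)) (Pt.aff (el 0, el 0) (el 0, el 0) (el 6)) (Pt.aff (el 0, el 7) (el 1, el 1) (el 6)) (Pt.aff (el 0, el 1) (el 6, el 3) (el 0))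
  decide

theorem notReg8 : ¬ Reg (Pt.cl 8 (el 0, el 0)) := by
  apply notReg_of_wit (Pt.cl 8 (el 0, el 0)) (Pt.aff (el 8, el 1) (el 4, el 6) (el 3)) (Pt.cl 8 (el 4, el 7)) (Pt.aff (el 0, el 5) (el 3, el 3) (el 0)) (Pt.aff (el 0, el 4) (el 8, el 3) (el 3)) (Pt.aff (el 1, el 0) (el 2, el 5) (el 8))
  decide

theorem notReg9 : ¬ Reg (Pt.cl 9 (el 0, el 0)) := by
  apply notReg_of_wit (Pt.cl 9 (el 0, el 0)) (Pt.aff (el 0, el 0) (el 1, el 7) (el 3)) (Pt.cl 9 (el 3, el 7)) (Pt.aff (el 0, el 5) (el 6, el 2) (el 6)) (Pt.aff (el 1, el 1) (el 1, el 1) (el 3)) (Pt.aff (el 1, el 7) (el 8, el 8) (el 2))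
  decide

theorem notReg10 : ¬ Reg (Pt.aff (el 0, el 0) (el 0, el 0) (el 0)) := by
  apply notReg_of_wit (Pt.aff (el 0, el 0) (el 0, el 0) (el 0)) (Pt.aff (el 8, el 3) (el 3, el 8) (el 4)) (Pt.cl 9 (el 0, el 0)) (Pt.aff (el 0, el 5) (el 6, el 4) (el 0)) (Pt.cl 9 (el 8, el 8)) (Pt.aff (el 1, el 8) (el 7, el 8) (el 0))
  decide

theorem reg_inf : Reg Pt.inf := by
  intro q hq r r' h1 h2 h3 h4 hne x h5 h6 r'' h7 h8
  rw [coll_iff] at hq h1 h2 h3 h4 h5 h6 h7 h8 ⊢
  cases q with
  | inf => exact absurd rfl hq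
  | cl _ _ => exact absurd rfl hq
  | aff a b c =>
    cases r with
    | inf => simp [collB] at h2
    | aff _ _ _ => simp [collB] at h1
    | cl i z =>
      cases r' with
      | inf => simp [collB] at h4
      | aff _ _ _ => simp [collB] at h3
      | cl j w =>
        simp only [collB, decide_eq_true_eq] at h2 h4
        have hij : i ≠ j := by
          rintro rfl
          exact hne (by rw [h2, h4])
        cases r'' with
        | inf => simp [collB] at h8
        | aff _ _ _ => simp [collB] at h7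
        | cl k v =>
          simp only [collB, decide_eq_true_eq] at h8
          cases x with
          | inf => rfl
          | cl m u =>
            simp only [collB, decide_eq_true_eq] at h5 h6
            exact absurd (h5.symm.trans h6) hij
          | aff s t e =>
            simp only [collB, decide_eq_true_eq] at h5 h6 ⊢
            obtain ⟨rfl, rfl⟩ := class_of_two hij (h5.symm.trans h2) (h6.symm.trans h4)
            exact h8

theorem reg_map (f : Equiv.Perm Pt) (hf : ∀ p q, Coll (f p) (f q) ↔ Coll p q) {p : Pt}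
    (hp : Reg p) : Reg (f p) := by
  intro q hq r r' h1 h2 h3 h4 hne x h5 h6 r'' h7 h8
  have e : ∀ a, f (f.symm a) = a := fun a => f.apply_symm_apply a
  rw [← e x, ← e r'', hf]
  rw [← e q, hf] at hq
  rw [← e r, hf] at h1
  rw [← e r, ← e q, hf] at h2
  rw [← e r', hf] at h3
  rw [← e r', ← e q, hf] at h4
  rw [← e x, ← e r, hf] at h5
  rw [← e x, ← e r', hf] at h6
  rw [← e r'', hf] at h7
  rw [← e r'', ← e q, hf] at h8
  exact hp _ hq _ _ h1 h2 h3 h4 (fun h => hne (f.symm.injective h)) _ h5 h6 _ h7 h8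

/-- translations -/
def tp (a b : V) (e : F9) : Pt → Pt
  | Pt.inf => Pt.inf
  | Pt.cl i z => Pt.cl i (z + zc i a b)
  | Pt.aff x y c => Pt.aff (x + a) (y + b) (c + e - (dot x b - dot y a))

def tl (a b : V) (e : F9) : Ln → Ln
  | Ln.inf i => Ln.inf i
  | Ln.ln i z d => Ln.ln i (z + zc i a b) (d + e + dot z b - dot b (zc i a b))

theorem zc_add (i : Fin 10) (x y a b : V) : zc i (x + a) (y + b) = zc i x y + zc i a b := by
  simp only [zc, S_add]; abel

theorem tp_inc (a b : V) (e : F9) (p : Pt) (l : Ln) (h : Inc p l) :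
    Inc (tp a b e p) (tl a b e l) := by
  cases p with
  | inf => cases l with
    | inf i => trivial
    | ln i z c => exact h.elim
  | cl i z => cases l with
    | inf j => exact h
    | ln j w c =>
      simp only [Inc] at h
      obtain ⟨rfl, rfl⟩ := h
      exact ⟨rfl, rfl⟩
  | aff x y c => cases l with
    | inf i => exact h.elim
    | ln i z d =>
      simp only [Inc] at h
      obtain ⟨rfl, rfl⟩ := h
      refine ⟨(zc_add i x y a b).symm, ?_⟩
      have h3 := three9
      simp only [cc, zc_add]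
      simp only [zc, dot, S, Prod.fst_sub, Prod.snd_sub, Prod.fst_add, Prod.snd_add]
      linear_combination (-(b.1 * (x.1 - (Sa i * y.1 + Sb i * y.2)) +
        b.2 * (x.2 - (Sb i * y.1 + Sd i * y.2)))) * h3 * (-1)

theorem tp_neg (a b : V) (e : F9) (p : Pt) : tp (-a) (-b) (-e) (tp a b e p) = p := by
  cases p with
  | inf => rfl
  | cl i z =>
    simp only [tp]
    congr 1
    have : zc i (-a) (-b) = - zc i a b := by
      simp only [zc]
      have : S i (-b) = - S i b := by ext <;> simp [S] <;> ring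
      rw [this]; abel
    rw [this]; abel
  | aff x y c =>
    simp only [tp]
    congr 1
    · abel
    · abel
    · simp only [dot, Prod.fst_add, Prod.snd_add, Prod.fst_neg, Prod.snd_neg]; ring

def tpE (a b : V) (e : F9) : Equiv.Perm Pt where
  toFun := tp a b e
  invFun := tp (-a) (-b) (-e)
  left_inv := tp_neg a b e
  right_inv := fun p => by
    have := tp_neg (-a) (-b) (-e) p
    simpa using this

theorem tp_coll (a b : V) (e : F9) {p q : Pt} (h : Coll p q) : Coll (tp a b e p) (tp a b e q) := by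
  obtain ⟨m, h1, h2⟩ := h
  exact ⟨tl a b e m, tp_inc a b e _ _ h1, tp_inc a b e _ _ h2⟩

theorem tpE_coll (a b : V) (e : F9) (p q : Pt) :
    Coll (tpE a b e p) (tpE a b e q) ↔ Coll p q := by
  constructor
  · intro h
    have := tp_coll (-a) (-b) (-e) h
    change Coll (tp (-a) (-b) (-e) (tp a b e p)) (tp (-a) (-b) (-e) (tp a b e q)) at this
    rwa [tp_neg, tp_neg] at this
  · exact tp_coll a b e

theorem reg_tp {a b : V} {e : F9} {p : Pt} (h : Reg (tp a b e p)) : Reg p := by
  have := reg_map (tpE (-a) (-b) (-e)) (tpE_coll (-a) (-b) (-e)) h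
  change Reg (tp (-a) (-b) (-e) (tp a b e p)) at this
  rwa [tp_neg] at this

theorem reg_only {p : Pt} (h : Reg p) : p = Pt.inf := by
  cases p with
  | inf => rfl
  | aff x y c =>
    exfalso
    have : Reg (Pt.aff 0 0 0) := by
      apply reg_tp (a := x) (b := y) (e := c)
      have e : tp x y c (Pt.aff 0 0 0) = Pt.aff x y c := by
        simp [tp, dot]
      rw [e]; exact h
    exact notReg10 this
  | cl i z =>
    exfalso
    have h0 : Reg (Pt.cl i 0) := by
      apply reg_tp (a := z) (b := 0) (e := 0)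
      have e : tp z 0 0 (Pt.cl i 0) = Pt.cl i z := by
        simp [tp, zc, S_zero]
      rw [e]; exact h
    revert h0
    fin_cases i
    · exact notReg0
    · exact notReg1
    · exact notReg2
    · exact notReg3
    · exact notReg4
    · exact notReg5
    · exact notReg6
    · exact notReg7
    · exact notReg8
    · exact notReg9

end Pool.Agent.Helper38.HS
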