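import Pool.Agent.Helper38.HS.Auto

/-! Local invariants of a set of lines and the rigidity criterion. -/

namespace Pool.Agent.Helper38.HS

open Finset

/-- the pattern of a set of lines at an affine point -/
def pt (h : Ln → Bool) (x y : V) (c : F9) (i : Fin 10) : Bool :=
  h (Ln.ln i (zc i x y) (cc i x y c))

def ip (h : Ln → Bool) (x y : V) (i j : Fin 10) : ℕ :=
  (univ.filter (fun c : F9 => (pt h x y c i && pt h x y c j) = true)).card

def colr (W : ℕ → ℕ) (h : Ln → Bool) (x y : V) : ℕ :=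
  ∑ i : Fin 10, ∑ j : Fin 10, W (ip h x y i j)

def rowc (W : ℕ → ℕ) (h : Ln → Bool) (x y : V) (i : Fin 10) : ℕ :=
  ∑ j : Fin 10, W (ip h x y i j)

variable {f : Equiv.Perm Pt} {g : Equiv.Perm Ln}

theorem pt_map (D : Dat f g) {h : Ln → Bool} (hg : ∀ l, h (g l) = h l) (x y : V) (c : F9)
    (i : Fin 10) : pt h (D.X x y) (D.Y x y) (D.C x y c) (D.s i) = pt h x y c i := by
  unfold pt
  rw [D.zc_eq, D.cc_eq, ← D.g_ln, hg]

theorem ip_map (D : Dat f g) {h : Ln → Bool} (hg : ∀ l, h (g l) = h l) (x y : V)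
    (i j : Fin 10) : ip h (D.X x y) (D.Y x y) (D.s i) (D.s j) = ip h x y i j := by
  unfold ip
  symm
  refine Finset.card_bij (fun c _ => D.C x y c) ?_ (fun a _ b _ hab => D.C_inj x y hab) ?_
  · intro c hc
    simp only [mem_filter, mem_univ, true_and] at hc ⊢
    rw [pt_map D hg, pt_map D hg]; exact hc
  · intro c hc
    simp only [mem_filter, mem_univ, true_and] at hc ⊢
    obtain ⟨d, rfl⟩ := (D.C_bij x y).2 c
    rw [pt_map D hg, pt_map D hg] at hc
    exact ⟨d, hc, rfl⟩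

theorem rowc_map (D : Dat f g) {W : ℕ → ℕ} {h : Ln → Bool} (hg : ∀ l, h (g l) = h l) (x y : V)
    (i : Fin 10) : rowc W h (D.X x y) (D.Y x y) (D.s i) = rowc W h x y i := by
  unfold rowc
  rw [← D.s_bij.sum_comp]
  exact Finset.sum_congr rfl fun j _ => by rw [ip_map D hg]

theorem colr_map (D : Dat f g) {W : ℕ → ℕ} {h : Ln → Bool} (hg : ∀ l, h (g l) = h l) (x y : V) :
    colr W h (D.X x y) (D.Y x y) = colr W h x y := by
  have e : ∀ x y, colr W h x y = ∑ i, rowc W h x y i := fun x y => rfl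
  rw [e, e, ← D.s_bij.sum_comp]
  exact Finset.sum_congr rfl fun j _ => by rw [rowc_map D hg]

theorem t_additive (D : Dat f g) (hs : ∀ i, D.s i = i) {x0 y0 : V} (hX : D.X x0 y0 = x0)
    (hY : D.Y x0 y0 = y0) {i j k : Fin 10} (hij : i ≠ j) (hik : i ≠ k) (hjk : j ≠ k) (p q : V) :
    D.t k (zc k x0 y0 + (p + q)) - zc k x0 y0 =
      (D.t k (zc k x0 y0 + p) - zc k x0 y0) + (D.t k (zc k x0 y0 + q) - zc k x0 y0) := by
  obtain ⟨a1, a2, ha, hak⟩ := exists_class hik 0 p
  obtain ⟨b1, b2, hb, hbk⟩ := exists_class hjk 0 q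
  have hz : ∀ i x y, zc i (D.X x y) (D.Y x y) = D.t i (zc i x y) := by
    intro i x y
    have := D.zc_eq i x y
    rwa [hs] at this
  have h0 : ∀ i, D.t i (zc i x0 y0) = zc i x0 y0 := by
    intro i
    rw [← hz, hX, hY]
  have zadd : ∀ i (x y a b : V), zc i (x + a) (y + b) = zc i x y + zc i a b := zc_add
  have zsub : ∀ i (x y a b : V), zc i (x - a) (y - b) = zc i x y - zc i a b := by
    intro i x y a b
    simp only [zc, S_sub]; abel
  set X1 := D.X (x0 + (a1 + b1)) (y0 + (a2 + b2)) with hX1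
  set Y1 := D.Y (x0 + (a1 + b1)) (y0 + (a2 + b2)) with hY1
  set X2 := D.X (x0 + a1) (y0 + a2) with hX2
  set Y2 := D.Y (x0 + a1) (y0 + a2) with hY2
  set X3 := D.X (x0 + b1) (y0 + b2) with hX3
  set Y3 := D.Y (x0 + b1) (y0 + b2) with hY3
  have e1 : ∀ m, zc m X1 Y1 = D.t m (zc m x0 y0 + (zc m a1 a2 + zc m b1 b2)) := by
    intro m; rw [hX1, hY1, hz, zadd, zadd]
  have e2 : ∀ m, zc m X2 Y2 = D.t m (zc m x0 y0 + zc m a1 a2) := by
    intro m; rw [hX2, hY2, hz, zadd]
  have e3 : ∀ m, zc m X3 Y3 = D.t m (zc m x0 y0 + zc m b1 b2) := by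
    intro m; rw [hX3, hY3, hz, zadd]
  have hi : zc i (X1 + x0) (Y1 + y0) = zc i (X2 + X3) (Y2 + Y3) := by
    rw [zadd, zadd, e1, e2, e3, ha, zero_add, add_zero, h0]; abel
  have hj : zc j (X1 + x0) (Y1 + y0) = zc j (X2 + X3) (Y2 + Y3) := by
    rw [zadd, zadd, e1, e2, e3, hb, add_zero, add_zero, h0]
  obtain ⟨ex, ey⟩ := class_of_two hij hi hj
  have hk : zc k (X1 + x0) (Y1 + y0) = zc k (X2 + X3) (Y2 + Y3) := by rw [ex, ey]
  rw [zadd, zadd, e1, e2, e3, hak, hbk] at hk
  have : D.t k (zc k x0 y0 + (p + q)) = D.t k (zc k x0 y0 + p) + D.t k (zc k x0 y0 + q) -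
    zc k x0 y0 := by rw [← hk]; abel
  rw [this]; abel

theorem zero_of_double {v : V} (h : v = v + v) : v = 0 := by
  have := congrArg (fun w => w - v) h
  simpa using this.symm

/-- an automorphism fixing the ten directions and five independent classes fixes all classes -/
theorem classes_fixed (D : Dat f g) (hs : ∀ i, D.s i = i) (T : Fin 5 → V × V)
    (hT : ∀ k, D.X (T k).1 (T k).2 = (T k).1 ∧ D.Y (T k).1 (T k).2 = (T k).2)
    (hspan : ∀ p : V, ∃ a b c d : Fin 3, p =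
      a.val • (zc 2 (T 1).1 (T 1).2 - zc 2 (T 0).1 (T 0).2) +
      b.val • (zc 2 (T 2).1 (T 2).2 - zc 2 (T 0).1 (T 0).2) +
      c.val • (zc 2 (T 3).1 (T 3).2 - zc 2 (T 0).1 (T 0).2) +
      d.val • (zc 2 (T 4).1 (T 4).2 - zc 2 (T 0).1 (T 0).2)) :
    ∀ i z, D.t i z = z := by
  obtain ⟨hX, hY⟩ := hT 0
  have hz : ∀ i x y, zc i (D.X x y) (D.Y x y) = D.t i (zc i x y) := by
    intro i x y
    have := D.zc_eq i x y
    rwa [hs] at this
  have h0 : ∀ i, D.t i (zc i (T 0).1 (T 0).2) = zc i (T 0).1 (T 0).2 := by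
    intro i
    rw [← hz, hX, hY]
  have hadd := t_additive D hs hX hY (i := 0) (j := 1) (k := 2) (by decide) (by decide) (by decide)
  set z0 := zc 2 (T 0).1 (T 0).2 with hz0
  let m : V →+ V :=
    { toFun := fun p => D.t 2 (z0 + p) - z0
      map_zero' := by
        change D.t 2 (z0 + 0) - z0 = 0
        rw [add_zero, h0, sub_self]
      map_add' := hadd }
  have hm : ∀ p, m p = D.t 2 (z0 + p) - z0 := fun p => rfl
  have hfix : ∀ k, m (zc 2 (T k).1 (T k).2 - z0) = zc 2 (T k).1 (T k).2 - z0 := by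
    intro k
    rw [hm]
    have e : z0 + (zc 2 (T k).1 (T k).2 - z0) = zc 2 (T k).1 (T k).2 := by abel
    rw [e, ← hz, (hT k).1, (hT k).2]
  have hall : ∀ p, m p = p := by
    intro p
    obtain ⟨a, b, c, d, hp⟩ := hspan p
    rw [hp]
    simp only [map_add, map_nsmul, hfix]
  have h2 : ∀ z, D.t 2 z = z := by
    intro z
    have h3 := hall (z - z0)
    rw [hm] at h3
    have e : z0 + (z - z0) = z := by abel
    rw [e] at h3
    exact sub_left_injective h3
  -- classes sharing a coordinate i ≠ 2 with the base class are fixed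
  have hA : ∀ i x y, i ≠ 2 → zc i x y = zc i (T 0).1 (T 0).2 → D.X x y = x ∧ D.Y x y = y := by
    intro i x y hi hxy
    apply class_of_two hi
    · rw [hz, hxy, h0]
    · rw [hz, h2]
  have hB : ∀ i, i ≠ 2 → ∀ z, D.t i z = z := by
    intro i hi z
    obtain ⟨j, hj2, hji⟩ : ∃ j : Fin 10, j ≠ 2 ∧ j ≠ i := by
      by_cases h : i = 0
      · exact ⟨1, by decide, by rw [h]; decide⟩
      · exact ⟨0, by decide, fun e => h e.symm⟩
    obtain ⟨x, y, hx, hy⟩ := exists_class (fun e => hji e.symm) z (zc j (T 0).1 (T 0).2)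
    obtain ⟨e1, e2⟩ := hA j x y hj2 hy
    have := hz i x y
    rw [e1, e2, hx] at this
    exact this.symm
  intro i z
  by_cases hi : i = 2
  · rw [hi]; exact h2 z
  · exact hB i hi z

/-- all classes fixed and distinct patterns at one class: the automorphism is trivial -/
theorem trivial_of_classes (D : Dat f g) (hs : ∀ i, D.s i = i) (ht : ∀ i z, D.t i z = z)
    {h : Ln → Bool} (hg : ∀ l, h (g l) = h l) (x0 y0 : V)
    (hp : ∀ c c' : F9, (∀ i, pt h x0 y0 c i = pt h x0 y0 c' i) → c = c') : f = 1 ∧ g = 1 := by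
  have hXY : ∀ x y, D.X x y = x ∧ D.Y x y = y := by
    intro x y
    apply class_of_two (i := 0) (j := 1) (by decide)
    · have := D.zc_eq 0 x y
      rwa [hs, ht] at this
    · have := D.zc_eq 1 x y
      rwa [hs, ht] at this
  have hcc : ∀ i x y c, cc i x y (D.C x y c) = D.G i (zc i x y) (cc i x y c) := by
    intro i x y c
    have := D.cc_eq i x y c
    rwa [hs, (hXY x y).1, (hXY x y).2] at this
  have hC0 : ∀ c, D.C x0 y0 c = c := by
    intro c
    apply hp
    intro i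
    have := pt_map D hg x0 y0 c i
    rwa [hs, (hXY x0 y0).1, (hXY x0 y0).2] at this
  -- fixed class: all its lines are fixed
  have hG : ∀ x y, (∀ c, D.C x y c = c) → ∀ i d, D.G i (zc i x y) d = d := by
    intro x y hxy i d
    have := hcc i x y (d + dot y (zc i x y))
    rw [hxy] at this
    have e : cc i x y (d + dot y (zc i x y)) = d := by rw [cc]; ring
    rw [e] at this
    exact this.symm
  have hCn : ∀ i x y, zc i x y = zc i x0 y0 → ∀ c, D.C x y c = c := by
    intro i x y hxy c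
    have := hcc i x y c
    rw [hxy, hG x0 y0 hC0] at this
    exact cc_inj this
  have hGa : ∀ i z d, D.G i z d = d := by
    intro i z d
    obtain ⟨j, hji⟩ : ∃ j : Fin 10, i ≠ j := by
      by_cases h : i = 0
      · exact ⟨1, by rw [h]; decide⟩
      · exact ⟨0, h⟩
    obtain ⟨x, y, hx, hy⟩ := exists_class hji z (zc j x0 y0)
    have := hG x y (hCn j x y hy) i d
    rwa [hx] at this
  have hCa : ∀ x y c, D.C x y c = c := by
    intro x y c
    have := hcc 0 x y c
    rw [hGa] at this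
    exact cc_inj this
  constructor
  · ext p
    cases p with
    | inf => exact D.f_inf
    | cl i z => rw [D.f_cl, hs, ht]; rfl
    | aff x y c => rw [D.f_aff, (hXY x y).1, (hXY x y).2, hCa]; rfl
  · ext l
    cases l with
    | inf i => rw [D.g_inf, hs]; rfl
    | ln i z d => rw [D.g_ln, hs, ht, hGa]; rfl

/-- the rigidity criterion -/
theorem rigid (W : ℕ → ℕ) (h : Ln → Bool) (T : Fin 5 → V × V)
    (hT : ∀ k x y, colr W h x y = colr W h (T k).1 (T k).2 → (x, y) = T k)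
    (hr : Function.Injective (rowc W h (T 0).1 (T 0).2))
    (hp : ∀ c c' : F9, (∀ i, pt h (T 0).1 (T 0).2 c i = pt h (T 0).1 (T 0).2 c' i) → c = c')
    (hspan : ∀ p : V, ∃ a b c d : Fin 3, p =
      a.val • (zc 2 (T 1).1 (T 1).2 - zc 2 (T 0).1 (T 0).2) +
      b.val • (zc 2 (T 2).1 (T 2).2 - zc 2 (T 0).1 (T 0).2) +
      c.val • (zc 2 (T 3).1 (T 3).2 - zc 2 (T 0).1 (T 0).2) +
      d.val • (zc 2 (T 4).1 (T 4).2 - zc 2 (T 0).1 (T 0).2))
    (f : Equiv.Perm Pt) (g : Equiv.Perm Ln) (hfg : ∀ p l, Inc (f p) (g l) ↔ Inc p l)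
    (hg : ∀ l, h (g l) = h l) : f = 1 ∧ g = 1 := by
  obtain ⟨D⟩ := exists_dat hfg
  have hTf : ∀ k, D.X (T k).1 (T k).2 = (T k).1 ∧ D.Y (T k).1 (T k).2 = (T k).2 := by
    intro k
    have := hT k _ _ (colr_map D hg (T k).1 (T k).2)
    exact ⟨congrArg Prod.fst this, congrArg Prod.snd this⟩
  have hs : ∀ i, D.s i = i := by
    intro i
    apply hr
    have := rowc_map D (W := W) hg (T 0).1 (T 0).2 i
    rwa [(hTf 0).1, (hTf 0).2] at this
  exact trivial_of_classes D hs (classes_fixed D hs T hTf hspan) hg _ _ hp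

end Pool.Agent.Helper38.HS
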